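import Mathlib

/-! Gaussian moments with a complex parameter. -/

set_option autoImplicit false

open MeasureTheory Set Filter Topology

namespace Pool.Agent.Lib61.GM

theorem norm_pow_cexp (m : ℕ) {a : ℂ} {r : ℝ} (hr : 0 < r) :
    ‖(r : ℂ) ^ m * Complex.exp (-a * (r : ℂ) ^ 2)‖ = r ^ m * Real.exp (-a.re * r ^ 2) := by
  rw [norm_mul, norm_pow, Complex.norm_real, Real.norm_eq_abs, abs_of_pos hr, Complex.norm_exp]
  have : (-a * (r : ℂ) ^ 2).re = -a.re * r ^ 2 := by
    rw [← Complex.ofReal_pow, Complex.re_mul_ofReal]; simp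
  rw [this]

theorem integrableOn_pow_cexp (m : ℕ) {a : ℂ} (ha : 0 < a.re) :
    IntegrableOn (fun r : ℝ => (r : ℂ) ^ m * Complex.exp (-a * (r : ℂ) ^ 2)) (Ioi 0) := by
  have h1 := integrableOn_rpow_mul_exp_neg_mul_sq ha (s := (m : ℝ)) (by
    have : (0 : ℝ) ≤ m := by positivity
    linarith)
  refine Integrable.mono' h1 (by fun_prop) ?_
  refine (ae_restrict_iff' measurableSet_Ioi).2 (Eventually.of_forall fun r hr => ?_)
  have hr0 : (0 : ℝ) < r := hr
  rw [norm_pow_cexp m hr0, Real.rpow_natCast]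

theorem tendsto_pow_cexp (m : ℕ) {a : ℂ} (ha : 0 < a.re) :
    Tendsto (fun r : ℝ => (r : ℂ) ^ m * Complex.exp (-a * (r : ℂ) ^ 2)) atTop (𝓝 0) := by
  have h1 := (rpow_mul_exp_neg_mul_sq_isLittleO_exp_neg ha (m : ℝ)).trans_tendsto (by
    have : Tendsto (fun x : ℝ => (1 / 2 : ℝ) * x) atTop atTop :=
      tendsto_id.const_mul_atTop (by norm_num)
    have h2 := Real.tendsto_exp_neg_atTop_nhds_zero.comp this
    refine h2.congr fun x => ?_
    simp only [Function.comp_apply]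
    congr 1
    ring)
  rw [tendsto_zero_iff_norm_tendsto_zero]
  refine h1.congr' ?_
  filter_upwards [eventually_gt_atTop 0] with r hr
  rw [norm_pow_cexp m hr, Real.rpow_natCast]

/-- the moment integrals -/
noncomputable def I (m : ℕ) (a : ℂ) : ℂ :=
  ∫ r : ℝ in Ioi 0, (r : ℂ) ^ m * Complex.exp (-a * (r : ℂ) ^ 2)

theorem I_zero {a : ℂ} (ha : 0 < a.re) : I 0 a = (Real.pi / a) ^ (1 / 2 : ℂ) / 2 := by
  rw [← integral_gaussian_complex_Ioi ha]
  simp [I]

theorem I_one {a : ℂ} (ha : 0 < a.re) : I 1 a = (2 * a)⁻¹ := by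
  rw [← integral_mul_cexp_neg_mul_sq ha]
  simp [I]

theorem I_add_two (m : ℕ) {a : ℂ} (ha : 0 < a.re) :
    I (m + 2) a = ((m : ℂ) + 1) / (2 * a) * I m a := by
  have ha0 : a ≠ 0 := by rintro rfl; simp at ha
  set u : ℝ → ℂ := fun r => (r : ℂ) ^ (m + 1) with hu
  set u' : ℝ → ℂ := fun r => ((m : ℂ) + 1) * (r : ℂ) ^ m with hu'
  set v : ℝ → ℂ := fun r => -(2 * a)⁻¹ * Complex.exp (-a * (r : ℂ) ^ 2) with hv
  set v' : ℝ → ℂ := fun r => (r : ℂ) * Complex.exp (-a * (r : ℂ) ^ 2) with hv'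
  have hdu : ∀ x ∈ Ioi (0 : ℝ), HasDerivAt u (u' x) x := by
    intro x _
    have h := (hasDerivAt_pow (m + 1) (x : ℂ)).comp_ofReal
    convert h using 1
    simp [hu']
  have hdv : ∀ x ∈ Ioi (0 : ℝ), HasDerivAt v (v' x) x := by
    intro x _
    have h : HasDerivAt (fun x : ℂ => -(2 * a)⁻¹ * Complex.exp (-a * x ^ 2))
        ((x : ℂ) * Complex.exp (-a * (x : ℂ) ^ 2)) (x : ℂ) := by
      have h1 := ((hasDerivAt_pow 2 (x : ℂ)).const_mul (-a)).cexp.const_mul (-(2 * a)⁻¹)
      have e0 : (x : ℂ) * Complex.exp (-a * (x : ℂ) ^ 2) =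
          -(2 * a)⁻¹ * (Complex.exp (-a * (x : ℂ) ^ 2) *
            (-a * (((2 : ℕ) : ℂ) * (x : ℂ) ^ (2 - 1)))) := by
        have : (2 * a)⁻¹ * (2 * a) = 1 := inv_mul_cancel₀ (mul_ne_zero two_ne_zero ha0)
        have e2 : ((x : ℂ)) ^ (2 - 1) = x := by norm_num
        rw [e2]
        push_cast
        linear_combination (-(x : ℂ) * Complex.exp (-a * (x : ℂ) ^ 2)) * this
      rw [e0]
      exact h1
    exact h.comp_ofReal
  have huv' : IntegrableOn (u * v') (Ioi 0) := by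
    refine (integrableOn_pow_cexp (m + 2) ha).congr_fun (fun r _ => ?_) measurableSet_Ioi
    simp only [hu, hv', Pi.mul_apply]
    ring
  have hu'v : IntegrableOn (u' * v) (Ioi 0) := by
    have h1 : IntegrableOn (fun r : ℝ => (((m : ℂ) + 1) * (-(2 * a)⁻¹)) *
        ((r : ℂ) ^ m * Complex.exp (-a * (r : ℂ) ^ 2))) (Ioi 0) :=
      (integrableOn_pow_cexp m ha).const_mul _
    refine h1.congr_fun (fun r _ => ?_) measurableSet_Ioi
    simp only [hu', hv, Pi.mul_apply]
    ring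
  have h0 : Tendsto (u * v) (𝓝[>] 0) (𝓝 0) := by
    have hc : Continuous (u * v) := by
      simp only [hu, hv]
      fun_prop
    have := hc.tendsto 0
    have h00 : (u * v) 0 = 0 := by simp [hu]
    rw [h00] at this
    exact this.mono_left nhdsWithin_le_nhds
  have hinf : Tendsto (u * v) atTop (𝓝 0) := by
    have := (tendsto_pow_cexp (m + 1) ha).const_mul (-(2 * a)⁻¹)
    rw [mul_zero] at this
    refine this.congr fun r => ?_
    simp only [hu, hv, Pi.mul_apply]
    ring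
  have key := integral_Ioi_mul_deriv_eq_deriv_mul hdu hdv huv' hu'v h0 hinf
  have e1 : I (m + 2) a = ∫ x in Ioi (0 : ℝ), u x * v' x := by
    unfold I
    refine setIntegral_congr_fun measurableSet_Ioi fun r _ => ?_
    simp only [hu, hv']
    ring
  have e2 : (∫ x in Ioi (0 : ℝ), u' x * v x) = (((m : ℂ) + 1) * (-(2 * a)⁻¹)) * I m a := by
    unfold I
    rw [← integral_const_mul]
    refine setIntegral_congr_fun measurableSet_Ioi fun r _ => ?_
    simp only [hu', hv]
    ring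
  rw [e1, key, e2]
  field_simp
  ring

/-- rotating by `i` -/
theorem div_I_mul_cpow {w : ℂ} (hw : 0 < w.re) (hw' : w.im ≤ 0) {c : ℝ} (hc : 0 < c) {s : ℂ} :
    ((c : ℂ) / (Complex.I * w)) ^ s =
      Complex.exp (-(Complex.I * (Real.pi / 2)) * s) * ((c : ℂ) / w) ^ s := by
  have hw0 : w ≠ 0 := by
    rintro rfl; simp at hw
  have hc0 : (c : ℂ) ≠ 0 := by exact_mod_cast hc.ne'
  have hinv : ((c : ℂ) / w) ≠ 0 := div_ne_zero hc0 hw0
  have e1 : (c : ℂ) / (Complex.I * w) = (-Complex.I) * (c / w) := by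
    field_simp
    rw [Complex.I_sq]
    ring
  have him : 0 ≤ ((c : ℂ) / w).im := by
    rw [div_eq_mul_inv, Complex.im_ofReal_mul, Complex.inv_im]
    exact mul_nonneg hc.le (div_nonneg (by linarith) (Complex.normSq_nonneg _))
  have harg0 : 0 ≤ ((c : ℂ) / w).arg := Complex.arg_nonneg_iff.2 him
  have harg1 : ((c : ℂ) / w).arg ≤ Real.pi := Complex.arg_le_pi _
  have hlog : Complex.log (-Complex.I * (c / w)) =
      Complex.log (-Complex.I) + Complex.log (c / w) := by
    apply Complex.log_mul (by simp) hinv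
    rw [Complex.arg_neg_I]
    constructor <;> linarith [Real.pi_pos]
  rw [e1, Complex.cpow_def_of_ne_zero (mul_ne_zero (by simp) hinv),
    Complex.cpow_def_of_ne_zero hinv, hlog, Complex.log_neg_I, ← Complex.exp_add]
  congr 1
  ring

theorem I_rotate (m : ℕ) {w : ℂ} (hw : 0 < w.re) (hw' : w.im < 0) :
    I m (Complex.I * w) = Complex.exp (-(Complex.I * (Real.pi * ((m : ℝ) + 1) / 4 : ℝ))) * I m w := by
  have hw0 : w ≠ 0 := by
    rintro rfl; simp at hw
  have hiw : 0 < (Complex.I * w).re := by simpa using hw'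
  have hpi : (Real.pi : ℂ) ≠ 0 := by exact_mod_cast Real.pi_ne_zero
  have hpi2 : Complex.exp (-(Complex.I * (Real.pi / 2))) = -Complex.I := by
    have : -(Complex.I * ((Real.pi : ℂ) / 2)) = -((Real.pi : ℂ) / 2 * Complex.I) := by ring
    rw [this, Complex.exp_neg, Complex.exp_pi_div_two_mul_I]
    simp
  induction m using Nat.twoStepInduction with
  | zero =>
    rw [I_zero hiw, I_zero hw]
    rw [div_I_mul_cpow hw hw'.le Real.pi_pos]
    have h1 : (-(Complex.I * ((Real.pi : ℂ) / 2)) * (1 / 2 : ℂ)) =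
        -(Complex.I * ((Real.pi * (((0 : ℕ) : ℝ) + 1) / 4 : ℝ) : ℂ)) := by
      push_cast
      ring
    rw [h1]
    ring
  | one =>
    rw [I_one hiw, I_one hw]
    have h1 : Complex.exp (-(Complex.I * ((Real.pi * (((1 : ℕ) : ℝ) + 1) / 4 : ℝ) : ℂ))) = -Complex.I := by
      rw [← hpi2]
      congr 1
      push_cast
      ring
    rw [h1]
    field_simp
    rw [Complex.I_sq]
    ring
  | more m ih _ =>
    rw [I_add_two m hiw, I_add_two m hw, ih]
    have h1 : Complex.exp (-(Complex.I * ((Real.pi * (((m + 2 : ℕ) : ℝ) + 1) / 4 : ℝ) : ℂ))) =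
        -Complex.I * Complex.exp (-(Complex.I * ((Real.pi * (((m : ℕ) : ℝ) + 1) / 4 : ℝ) : ℂ))) := by
      rw [← hpi2, ← Complex.exp_add]
      congr 1
      push_cast
      ring
    rw [h1]
    field_simp
    rw [Complex.I_sq]
    ring

end Pool.Agent.Lib61.GM
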