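import Mathlib

/-! Polar coordinates for integrals over a finite-dimensional normed space, in a form convenient
for homogeneous functions. -/

set_option autoImplicit false
set_option linter.unusedSectionVars false

open MeasureTheory Set Metric Filter

namespace Pool.Agent.Lib61.Polar

variable {E : Type*} [NormedAddCommGroup E] [NormedSpace ℝ E] [MeasurableSpace E] [BorelSpace E]
  [FiniteDimensional ℝ E] [Nontrivial E] (μ : Measure E) [μ.IsAddHaarMeasure]
  {F : Type*} [NormedAddCommGroup F] [NormedSpace ℝ F]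

theorem integrable_prod {f : E → F} (hf : Integrable f μ) :
    Integrable (fun p : sphere (0 : E) 1 × Ioi (0 : ℝ) => f ((p.2 : ℝ) • (p.1 : E)))
      (μ.toSphere.prod (Measure.volumeIoiPow (Module.finrank ℝ E - 1))) := by
  have h1 := μ.measurePreserving_homeomorphUnitSphereProd.integrable_comp_emb
    (g := fun p : sphere (0 : E) 1 × Ioi (0 : ℝ) => f ((p.2 : ℝ) • (p.1 : E)))
    (Homeomorph.measurableEmbedding _)
  rw [← h1]
  have h2 : ((fun p : sphere (0 : E) 1 × Ioi (0 : ℝ) => f ((p.2 : ℝ) • (p.1 : E))) ∘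
      (homeomorphUnitSphereProd E)) = f ∘ ((↑) : ({0}ᶜ : Set E) → E) := by
    funext x
    simp only [Function.comp_apply]
    congr 1
    have hx : (x : E) ≠ 0 := x.2
    simp [homeomorphUnitSphereProd, smul_smul, norm_ne_zero_iff.2 hx]
  rw [h2, ← integrableOn_iff_comap_subtypeVal (measurableSet_singleton _).compl]
  exact hf.integrableOn

theorem integral_prod_eq (f : E → F) :
    ∫ x, f x ∂μ = ∫ p : sphere (0 : E) 1 × Ioi (0 : ℝ), f ((p.2 : ℝ) • (p.1 : E))
      ∂(μ.toSphere.prod (Measure.volumeIoiPow (Module.finrank ℝ E - 1))) := by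
  have h1 := μ.measurePreserving_homeomorphUnitSphereProd.integral_comp
    (Homeomorph.measurableEmbedding _)
    (fun p : sphere (0 : E) 1 × Ioi (0 : ℝ) => f ((p.2 : ℝ) • (p.1 : E)))
  rw [← h1]
  have h2 : (fun x : ({0}ᶜ : Set E) => f ((((homeomorphUnitSphereProd E) x).2 : ℝ) •
      (((homeomorphUnitSphereProd E) x).1 : E))) = fun x : ({0}ᶜ : Set E) => f (x : E) := by
    funext x
    congr 1
    have hx : (x : E) ≠ 0 := x.2
    simp [homeomorphUnitSphereProd, smul_smul, norm_ne_zero_iff.2 hx]
  rw [h2]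
  have h3 := integral_subtype_comap (μ := μ) (s := ({0}ᶜ : Set E))
    (measurableSet_singleton (0 : E)).compl f
  rw [restrict_compl_singleton] at h3
  exact h3.symm

theorem integrable_volumeIoiPow_iff {n : ℕ} {g : ℝ → F} :
    Integrable (fun r : Ioi (0 : ℝ) => g r) (Measure.volumeIoiPow n) ↔
      IntegrableOn (fun r : ℝ => r ^ n • g r) (Ioi 0) := by
  rw [integrableOn_iff_comap_subtypeVal measurableSet_Ioi, Measure.volumeIoiPow,
    integrable_withDensity_iff_integrable_smul', integrable_congr]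
  · refine .of_forall ?_
    rintro ⟨x, hx : 0 < x⟩
    simp (disch := positivity) [ENNReal.toReal_ofReal]
  · fun_prop
  · simp

theorem integral_volumeIoiPow {n : ℕ} (g : ℝ → F) :
    ∫ r : Ioi (0 : ℝ), g r ∂(Measure.volumeIoiPow n) = ∫ r in Ioi (0 : ℝ), r ^ n • g r := by
  simp only [Measure.volumeIoiPow, ENNReal.ofReal]
  rw [integral_withDensity_eq_integral_smul,
    integral_subtype_comap measurableSet_Ioi fun a ↦ Real.toNNReal (a ^ n) • g a,
    setIntegral_congr_fun measurableSet_Ioi fun x hx ↦ ?_]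
  · rw [NNReal.smul_def, Real.coe_toNNReal _ (pow_nonneg hx.out.le _)]
  · exact (measurable_subtype_coe.pow_const _).real_toNNReal

/-- Polar coordinates. -/
theorem polar {f : E → F} (hf : Integrable f μ) :
    (∀ᵐ θ : sphere (0 : E) 1 ∂μ.toSphere,
      IntegrableOn (fun r : ℝ => r ^ (Module.finrank ℝ E - 1) • f (r • (θ : E))) (Ioi 0)) ∧
    ∫ x, f x ∂μ = ∫ θ : sphere (0 : E) 1, (∫ r in Ioi (0 : ℝ),
      r ^ (Module.finrank ℝ E - 1) • f (r • (θ : E))) ∂μ.toSphere := by
  have h1 := integrable_prod μ hf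
  constructor
  · filter_upwards [h1.prod_right_ae] with θ hθ
    exact integrable_volumeIoiPow_iff.1 hθ
  · rw [integral_prod_eq μ f, integral_prod _ h1]
    refine integral_congr_ae (Eventually.of_forall fun θ => ?_)
    exact integral_volumeIoiPow (fun r => f (r • (θ : E)))

end Pool.Agent.Lib61.Polar
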