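import Pool.Agent.Lib_helper16.RA.Basics
import Pool.Agent.Lib_helper61.Polar
import Pool.Agent.Lib_helper61.GaussMoment

/-! Block S2 of MP_20f8ce_gt : Gaussian integrals over cones inside the light cone. -/

set_option autoImplicit false

open MeasureTheory Set Filter Topology

namespace Pool.Agent.RA

open Pool.Agent.Lib61

theorem integrable_exp_neg_E2 {n : ℕ} {δ : ℝ} (hδ : 0 < δ) :
    Integrable (fun x : M n => Real.exp (-(δ * E2 x))) := by
  have h1 : Integrable (fun x : Fin n → ℝ => ∏ i, Real.exp (-δ * x i ^ 2)) := by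
    exact Integrable.fintype_prod (f := fun (_ : Fin n) (t : ℝ) => Real.exp (-δ * t ^ 2))
      (fun _ => integrable_exp_neg_mul_sq hδ)
  have h2 := h1.mul_prod (integrable_exp_neg_mul_sq hδ)
  refine h2.congr (Eventually.of_forall fun x => ?_)
  simp only [E2]
  rw [← Real.exp_sum, ← Real.exp_add]
  congr 1
  rw [mul_add, Finset.mul_sum, neg_add, ← Finset.sum_neg_distrib]
  congr 1
  · exact Finset.sum_congr rfl fun i _ => by ring
  · ring

theorem finrank_M (n : ℕ) : Module.finrank ℝ (M n) = n + 1 := by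
  simp [M]

instance instHaarM (n : ℕ) : (volume : Measure (M n)).IsAddHaarMeasure := by
  rw [Measure.volume_eq_prod]
  infer_instance

theorem E2_pos_of_ne {n : ℕ} {x : M n} (hx : x ≠ 0) : 0 < E2 x :=
  lt_of_le_of_ne (E2_nonneg x) fun h => hx (E2_eq_zero x h.symm)

/-- exact rotation for positive regularization -/
theorem integral_cone_rotate {n : ℕ} (C : Set (M n)) (hC : MeasurableSet C)
    (hcone : ∀ x ∈ C, ∀ t : ℝ, 0 < t → t • x ∈ C) (hneg : ∀ x ∈ C, B x x ≤ 0)
    (hint : IntegrableOn (fun x => Real.exp (B x x)) C) {δ : ℝ} (hδ : 0 < δ) :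
    ∫ x in C, Complex.exp (Complex.I * (B x x : ℝ) - (δ * E2 x : ℝ)) =
      Complex.exp (-(Complex.I * (Real.pi * ((n : ℝ) + 1) / 4 : ℝ))) *
        ∫ x in C, Complex.exp ((B x x : ℝ) + Complex.I * (δ * E2 x : ℝ)) := by
  set g1 : M n → ℂ := fun x => Complex.exp (Complex.I * (B x x : ℝ) - (δ * E2 x : ℝ)) with hg1
  set g2 : M n → ℂ := fun x => Complex.exp ((B x x : ℝ) + Complex.I * (δ * E2 x : ℝ)) with hg2
  have hQ : Continuous (fun x : M n => B x x) := continuous_Q
  have hE : Continuous (fun x : M n => E2 x) := continuous_E2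
  have hg1c : Continuous g1 := by
    rw [hg1]
    fun_prop
  have hg2c : Continuous g2 := by
    rw [hg2]
    fun_prop
  have hn1 : ∀ x, ‖g1 x‖ = Real.exp (-(δ * E2 x)) := by
    intro x
    rw [hg1]
    simp only
    rw [Complex.norm_exp]
    congr 1
    simp
  have hn2 : ∀ x, ‖g2 x‖ = Real.exp (B x x) := by
    intro x
    rw [hg2]
    simp only
    rw [Complex.norm_exp]
    congr 1
    simp
  have hi1 : Integrable (C.indicator g1) := by
    refine (integrable_exp_neg_E2 (n := n) hδ).mono
      (hg1c.aestronglyMeasurable.indicator hC) (Eventually.of_forall fun x => ?_)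
    refine (norm_indicator_le_norm_self g1 x).trans ?_
    rw [hn1]
    exact le_abs_self _
  have hi2 : Integrable (C.indicator g2) := by
    rw [integrable_indicator_iff hC]
    refine hint.mono' hg2c.aestronglyMeasurable (Eventually.of_forall fun x => ?_)
    rw [hn2]
  obtain ⟨-, e1⟩ := Polar.polar volume hi1
  obtain ⟨a2, e2⟩ := Polar.polar volume hi2
  rw [← integral_indicator hC, ← integral_indicator hC, e1, e2, ← integral_const_mul]
  refine integral_congr_ae ?_
  filter_upwards [a2] with θ hθ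
  rw [finrank_M, Nat.add_sub_cancel] at hθ ⊢
  have hθ0 : (θ : M n) ≠ 0 := by
    intro h
    have := θ.2
    rw [h] at this
    simp at this
  by_cases hθC : (θ : M n) ∈ C
  · -- inside the cone
    have hmem : ∀ r : ℝ, r ∈ Ioi (0 : ℝ) → r • (θ : M n) ∈ C := fun r hr => hcone _ hθC r hr
    set w : ℂ := ⟨-(B (θ : M n) θ), -(δ * E2 (θ : M n))⟩ with hw
    have r2 : ∀ r : ℝ, r ∈ Ioi (0 : ℝ) → (r ^ n • C.indicator g2 (r • (θ : M n)) : ℂ) =
        (r : ℂ) ^ n * Complex.exp (-w * (r : ℂ) ^ 2) := by
      intro r hr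
      rw [indicator_of_mem (hmem r hr), hg2]
      simp only
      rw [Complex.real_smul, Complex.ofReal_pow]
      congr 2
      rw [B_smul_left, B_smul_right, E2_smul, hw]
      apply Complex.ext
      · simp [← Complex.ofReal_pow]
        ring
      · simp [← Complex.ofReal_pow]
        ring
    have r1 : ∀ r : ℝ, r ∈ Ioi (0 : ℝ) → (r ^ n • C.indicator g1 (r • (θ : M n)) : ℂ) =
        (r : ℂ) ^ n * Complex.exp (-(Complex.I * w) * (r : ℂ) ^ 2) := by
      intro r hr
      rw [indicator_of_mem (hmem r hr), hg1]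
      simp only
      rw [Complex.real_smul, Complex.ofReal_pow]
      congr 2
      rw [B_smul_left, B_smul_right, E2_smul, hw]
      apply Complex.ext
      · simp [← Complex.ofReal_pow]
        ring
      · simp [← Complex.ofReal_pow]
        ring
    have hwim : w.im < 0 := by
      rw [hw]
      simp only
      have := mul_pos hδ (E2_pos_of_ne hθ0)
      linarith
    have hwre : 0 < w.re := by
      rw [hw]
      simp only
      rcases (hneg _ hθC).lt_or_eq with h | h
      · linarith
      · exfalso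
        refine not_integrableOn_Ioi_rpow (n : ℝ) ?_
        have h3 : IntegrableOn (fun r : ℝ => ‖(r ^ n • C.indicator g2 (r • (θ : M n)) : ℂ)‖)
            (Ioi 0) := hθ.norm
        refine h3.congr_fun (fun r hr => ?_) measurableSet_Ioi
        have hr0 : (0 : ℝ) < r := hr
        simp only
        rw [r2 r hr, GM.norm_pow_cexp n hr0, hw]
        simp only
        rw [h, Real.rpow_natCast]
        simp
    have key := GM.I_rotate n hwre hwim
    rw [setIntegral_congr_fun measurableSet_Ioi r1, setIntegral_congr_fun measurableSet_Ioi r2]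
    exact key
  · have hnm : ∀ r : ℝ, r ∈ Ioi (0 : ℝ) → r • (θ : M n) ∉ C := by
      intro r hr h
      apply hθC
      have := hcone _ h r⁻¹ (inv_pos.2 hr)
      rwa [smul_smul, inv_mul_cancel₀ (ne_of_gt hr), one_smul] at this
    have z1 : ∀ r : ℝ, r ∈ Ioi (0 : ℝ) → (r ^ n • C.indicator g1 (r • (θ : M n)) : ℂ) = 0 := by
      intro r hr
      rw [indicator_of_notMem (hnm r hr), smul_zero]
    have z2 : ∀ r : ℝ, r ∈ Ioi (0 : ℝ) → (r ^ n • C.indicator g2 (r • (θ : M n)) : ℂ) = 0 := by
      intro r hr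
      rw [indicator_of_notMem (hnm r hr), smul_zero]
    rw [setIntegral_congr_fun measurableSet_Ioi z1, setIntegral_congr_fun measurableSet_Ioi z2]
    simp

theorem tendsto_cone {n : ℕ} (C : Set (M n)) (hC : MeasurableSet C)
    (hcone : ∀ x ∈ C, ∀ t : ℝ, 0 < t → t • x ∈ C) (hneg : ∀ x ∈ C, B x x ≤ 0)
    (hint : IntegrableOn (fun x => Real.exp (B x x)) C) :
    Tendsto (fun δ : ℝ => ∫ x in C,
        Complex.exp (Complex.I * (B x x : ℝ) - (δ * E2 x : ℝ))) (𝓝[>] 0)
      (𝓝 (Complex.exp (-(Complex.I * (Real.pi * ((n : ℝ) + 1) / 4 : ℝ))) *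
        ((∫ x in C, Real.exp (B x x) : ℝ) : ℂ))) := by
  have hQ : Continuous (fun x : M n => B x x) := continuous_Q
  have hE : Continuous (fun x : M n => E2 x) := continuous_E2
  have h1 : Tendsto (fun δ : ℝ => ∫ x in C, Complex.exp ((B x x : ℝ) + Complex.I * (δ * E2 x : ℝ)))
      (𝓝[>] 0) (𝓝 (∫ x in C, ((Real.exp (B x x) : ℝ) : ℂ))) := by
    refine tendsto_integral_filter_of_dominated_convergence (fun x => Real.exp (B x x)) ?_ ?_
      hint ?_
    · refine Eventually.of_forall fun δ => ?_
      exact (by fun_prop : Continuous fun x : M n =>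
        Complex.exp ((B x x : ℝ) + Complex.I * (δ * E2 x : ℝ))).aestronglyMeasurable
    · refine Eventually.of_forall fun δ => Eventually.of_forall fun x => ?_
      rw [Complex.norm_exp]
      simp
    · refine Eventually.of_forall fun x => ?_
      have hc : Continuous fun δ : ℝ => Complex.exp ((B x x : ℝ) + Complex.I * (δ * E2 x : ℝ)) := by
        fun_prop
      have := hc.tendsto 0
      simp only [zero_mul, Complex.ofReal_zero, mul_zero, add_zero] at this
      rw [Complex.ofReal_exp]
      exact this.mono_left nhdsWithin_le_nhds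
  rw [← integral_complex_ofReal]
  refine (h1.const_mul _).congr' ?_
  filter_upwards [self_mem_nhdsWithin] with δ hδ
  exact (integral_cone_rotate C hC hcone hneg hint hδ).symm

/-- relation between the Gaussian integral and the Lebesgue measure of the truncated cone -/
theorem integral_exp_cone {n : ℕ} (C : Set (M n)) (hC : MeasurableSet C)
    (hcone : ∀ x ∈ C, ∀ t : ℝ, 0 < t → t • x ∈ C) (hneg : ∀ x ∈ C, B x x ≤ 0)
    (hint : IntegrableOn (fun x => Real.exp (B x x)) C) :
    volume (C ∩ {x | -1 ≤ B x x}) < ⊤ ∧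
    ∫ x in C, Real.exp (B x x) =
      Real.Gamma (((n : ℝ) + 1) / 2 + 1) * (volume (C ∩ {x | -1 ≤ B x x})).toReal := by
  have hQ : Continuous (fun x : M n => B x x) := continuous_Q
  have hT : MeasurableSet (C ∩ {x : M n | -1 ≤ B x x}) :=
    hC.inter (measurableSet_le measurable_const hQ.measurable)
  have hi1 : Integrable (C.indicator fun x : M n => Real.exp (B x x)) :=
    (integrable_indicator_iff hC).2 hint
  have hi2 : Integrable ((C ∩ {x : M n | -1 ≤ B x x}).indicator fun _ => (1 : ℝ)) := by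
    refine Integrable.mono' (hi1.const_mul (Real.exp 1))
      (measurable_const.indicator hT).aestronglyMeasurable (Eventually.of_forall fun x => ?_)
    by_cases hx : x ∈ C ∩ {x : M n | -1 ≤ B x x}
    · rw [indicator_of_mem hx, indicator_of_mem hx.1, ← Real.exp_add]
      have h1 : (-1 : ℝ) ≤ B x x := hx.2
      rw [norm_one]
      exact Real.one_le_exp (by linarith)
    · rw [indicator_of_notMem hx, norm_zero]
      exact mul_nonneg (Real.exp_pos _).le (indicator_nonneg (fun _ _ => (Real.exp_pos _).le) _)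
  have hfin : volume (C ∩ {x : M n | -1 ≤ B x x}) < ⊤ := by
    rw [integrable_indicator_iff hT] at hi2
    have := (integrableOn_const_iff (C := (1 : ℝ)) (by simp)).1 hi2
    simpa using this
  refine ⟨hfin, ?_⟩
  have hvol : (volume (C ∩ {x : M n | -1 ≤ B x x})).toReal =
      ∫ x, (C ∩ {x : M n | -1 ≤ B x x}).indicator (fun _ => (1 : ℝ)) x := by
    rw [integral_indicator hT]
    simp [Measure.real]
  obtain ⟨a1, e1⟩ := Polar.polar volume hi1
  obtain ⟨-, e2⟩ := Polar.polar volume hi2
  rw [← integral_indicator hC, hvol, e1, e2, ← integral_const_mul]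
  refine integral_congr_ae ?_
  filter_upwards [a1] with θ hθ
  rw [finrank_M, Nat.add_sub_cancel] at hθ ⊢
  by_cases hθC : (θ : M n) ∈ C
  · have hmem : ∀ r : ℝ, r ∈ Ioi (0 : ℝ) → r • (θ : M n) ∈ C := fun r hr => hcone _ hθC r hr
    have r1 : ∀ r : ℝ, r ∈ Ioi (0 : ℝ) →
        (r ^ n • C.indicator (fun x : M n => Real.exp (B x x)) (r • (θ : M n)) : ℝ) =
        r ^ (n : ℝ) * Real.exp (-(-(B (θ : M n) θ)) * r ^ (2 : ℝ)) := by
      intro r hr
      rw [indicator_of_mem (hmem r hr), B_smul_left, B_smul_right, smul_eq_mul, Real.rpow_natCast,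
        Real.rpow_two]
      congr 2
      ring
    have hq : 0 < -(B (θ : M n) θ) := by
      rcases (hneg _ hθC).lt_or_eq with h | h
      · linarith
      · exfalso
        refine not_integrableOn_Ioi_rpow (n : ℝ) ?_
        refine hθ.congr_fun (fun r hr => ?_) measurableSet_Ioi
        simp only
        rw [r1 r hr, h]
        simp
    set q : ℝ := -(B (θ : M n) θ) with hqdef
    have r2 : ∀ r : ℝ, r ∈ Ioi (0 : ℝ) →
        (r ^ n • (C ∩ {x : M n | -1 ≤ B x x}).indicator (fun _ => (1 : ℝ)) (r • (θ : M n)) : ℝ) =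
        (Ioc 0 (q ^ (-(1 / 2) : ℝ))).indicator (fun r : ℝ => r ^ n) r := by
      intro r hr
      have hr0 : (0 : ℝ) < r := hr
      have hiff : r • (θ : M n) ∈ C ∩ {x : M n | -1 ≤ B x x} ↔ r ∈ Ioc 0 (q ^ (-(1 / 2) : ℝ)) := by
        rw [mem_inter_iff, mem_setOf_eq, mem_Ioc, B_smul_left, B_smul_right]
        have h1 : (0 : ℝ) < q ^ (-(1 / 2) : ℝ) := Real.rpow_pos_of_pos hq _
        have h2 : (q ^ (-(1 / 2) : ℝ)) ^ 2 = q⁻¹ := by
          rw [← Real.rpow_natCast, ← Real.rpow_mul hq.le]
          norm_num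
          exact Real.rpow_neg_one q
        have h3 : r ≤ q ^ (-(1 / 2) : ℝ) ↔ r ^ 2 ≤ q⁻¹ := by
          rw [← h2]
          exact (pow_le_pow_iff_left₀ hr0.le h1.le two_ne_zero).symm
        rw [h3, le_inv_comm₀ (by positivity) hq]
        constructor
        · rintro ⟨-, h⟩
          refine ⟨hr0, ?_⟩
          rw [← mul_le_mul_iff_of_pos_right (show (0 : ℝ) < r ^ 2 by positivity),
            inv_mul_cancel₀ (by positivity)]
          nlinarith
        · rintro ⟨-, h⟩
          refine ⟨hmem r hr, ?_⟩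
          rw [← mul_le_mul_iff_of_pos_right (show (0 : ℝ) < r ^ 2 by positivity),
            inv_mul_cancel₀ (by positivity)] at h
          nlinarith
      by_cases h : r • (θ : M n) ∈ C ∩ {x : M n | -1 ≤ B x x}
      · rw [indicator_of_mem h, indicator_of_mem (hiff.1 h), smul_eq_mul, mul_one]
      · rw [indicator_of_notMem h, indicator_of_notMem (fun h' => h (hiff.2 h')), smul_zero]
    rw [setIntegral_congr_fun measurableSet_Ioi r1, setIntegral_congr_fun measurableSet_Ioi r2,
      integral_rpow_mul_exp_neg_mul_rpow (p := 2) (q := (n : ℝ)) two_pos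
        (lt_of_lt_of_le (by norm_num) (Nat.cast_nonneg n)) hq,
      setIntegral_indicator measurableSet_Ioc]
    have hinter : Ioi (0 : ℝ) ∩ Ioc 0 (q ^ (-(1 / 2) : ℝ)) = Ioc 0 (q ^ (-(1 / 2) : ℝ)) :=
      inter_eq_right.2 Ioc_subset_Ioi_self
    rw [hinter, ← intervalIntegral.integral_of_le (Real.rpow_pos_of_pos hq _).le, integral_pow]
    have hpow : (q ^ (-(1 / 2) : ℝ)) ^ (n + 1) = q ^ (-((n : ℝ) + 1) / 2) := by
      rw [← Real.rpow_natCast, ← Real.rpow_mul hq.le]
      congr 1
      push_cast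
      ring
    rw [hpow, Real.Gamma_add_one (by positivity)]
    field_simp
    simp
  · have hnm : ∀ r : ℝ, r ∈ Ioi (0 : ℝ) → r • (θ : M n) ∉ C := by
      intro r hr h
      apply hθC
      have := hcone _ h r⁻¹ (inv_pos.2 hr)
      rwa [smul_smul, inv_mul_cancel₀ (ne_of_gt hr), one_smul] at this
    have z1 : ∀ r : ℝ, r ∈ Ioi (0 : ℝ) →
        (r ^ n • C.indicator (fun x : M n => Real.exp (B x x)) (r • (θ : M n)) : ℝ) = 0 := by
      intro r hr
      rw [indicator_of_notMem (hnm r hr), smul_zero]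
    have z2 : ∀ r : ℝ, r ∈ Ioi (0 : ℝ) →
        (r ^ n • (C ∩ {x : M n | -1 ≤ B x x}).indicator (fun _ => (1 : ℝ))
          (r • (θ : M n)) : ℝ) = 0 := by
      intro r hr
      rw [indicator_of_notMem (fun h => hnm r hr h.1), smul_zero]
    rw [setIntegral_congr_fun measurableSet_Ioi z1, setIntegral_congr_fun measurableSet_Ioi z2]
    simp

end Pool.Agent.RA
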