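import Pool.Agent.Lib_helper16.RA.Basics
import Pool.Agent.Lib_helper61.RACone

/-! Block I of MP_20f8ce_gt : integrability of the Gaussian over the cone of a finite volume
right-angled polytope. -/

set_option autoImplicit false

open MeasureTheory Set Filter Topology

namespace Pool.Agent.RA

/-- a null vector has a partner orthogonal to an orthonormal family in its orthogonal space -/
theorem exists_partner {n m : ℕ} (f : M n) (hf0 : f ≠ 0) (hf : B f f = 0) (E : Fin m → M n)
    (hunit : ∀ k, B (E k) (E k) = 1) (horth : ∀ k l, k ≠ l → B (E k) (E l) = 0)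
    (hperp : ∀ k, B f (E k) = 0) :
    ∃ g : M n, B g g = 0 ∧ B f g = -1 ∧ ∀ k, B g (E k) = 0 := by
  set p0 : M n := (f.1, -f.2) with hp0
  have hE2 : 0 < E2 f := E2_pos_of_ne hf0
  have h0 : B p0 f = E2 f := by
    simp only [hp0, B, E2]
    rw [sub_eq_add_neg]
    congr 1
    · exact Finset.sum_congr rfl fun i _ => by ring
    · ring
  set p' : M n := p0 - ∑ k, B p0 (E k) • E k with hp'
  have h1 : B p' f = E2 f := by
    rw [hp', B_sub_left, B_sum_left, h0]
    have : ∑ k, B (B p0 (E k) • E k) f = 0 := by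
      refine Finset.sum_eq_zero fun k _ => ?_
      rw [B_smul_left, B_comm (E k) f, hperp, mul_zero]
    rw [this, sub_zero]
  have h2 : ∀ l, B p' (E l) = 0 := by
    intro l
    rw [hp', B_sub_left, B_sum_left]
    have : ∑ k, B (B p0 (E k) • E k) (E l) = B p0 (E l) := by
      rw [Finset.sum_eq_single l]
      · rw [B_smul_left, hunit, mul_one]
      · intro k _ hk
        rw [B_smul_left, horth k l hk, mul_zero]
      · simp
    rw [this, sub_self]
  refine ⟨(-(E2 f)⁻¹) • p' + ((E2 f)⁻¹ ^ 2 * B p' p' / 2) • f, ?_, ?_, ?_⟩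
  · simp only [B_add_left, B_add_right, B_smul_left, B_smul_right, hf, h1, B_comm f p']
    field_simp
    ring
  · simp only [B_add_right, B_smul_right, hf, B_comm f p', h1]
    field_simp
    ring
  · intro k
    simp only [B_add_left, B_smul_left, h2, hperp]
    ring

/-- null coordinates `(ξ, α, X)` -/
noncomputable def nullMap {n : ℕ} (f g : M n) {m : ℕ} (E : Fin m → M n) :
    (ℝ × ℝ × (Fin m → ℝ)) →ₗ[ℝ] M n where
  toFun v := v.1 • g + v.2.1 • f + ∑ k, v.2.2 k • E k
  map_add' v w := by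
    simp only [Prod.fst_add, Prod.snd_add, add_smul, Pi.add_apply, Finset.sum_add_distrib]
    abel
  map_smul' c v := by
    simp only [Prod.smul_fst, Prod.smul_snd, smul_add, Pi.smul_apply, smul_eq_mul, mul_smul,
      Finset.smul_sum, RingHom.id_apply]

theorem nullMap_apply {n : ℕ} (f g : M n) {m : ℕ} (E : Fin m → M n) (v : ℝ × ℝ × (Fin m → ℝ)) :
    nullMap f g E v = v.1 • g + v.2.1 • f + ∑ k, v.2.2 k • E k := rfl

section coord
variable {n m : ℕ} {f g : M n} {E : Fin m → M n}
  (hf : B f f = 0) (hg : B g g = 0) (hfg : B f g = -1) (hgE : ∀ k, B g (E k) = 0)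
  (hunit : ∀ k, B (E k) (E k) = 1) (horth : ∀ k l, k ≠ l → B (E k) (E l) = 0)
  (hperp : ∀ k, B f (E k) = 0)
include hf hg hfg hgE hunit horth hperp

omit hg horth hunit hgE in
theorem nullMap_f (v : ℝ × ℝ × (Fin m → ℝ)) : B (nullMap f g E v) f = -v.1 := by
  rw [nullMap_apply, B_add_left, B_add_left, B_smul_left, B_smul_left, B_sum_left, hf,
    B_comm g f, hfg]
  have : ∑ k, B (v.2.2 k • E k) f = 0 :=
    Finset.sum_eq_zero fun k _ => by rw [B_smul_left, B_comm (E k) f, hperp, mul_zero]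
  rw [this]
  ring

omit hf horth hunit hperp in
theorem nullMap_g (v : ℝ × ℝ × (Fin m → ℝ)) : B (nullMap f g E v) g = -v.2.1 := by
  rw [nullMap_apply, B_add_left, B_add_left, B_smul_left, B_smul_left, B_sum_left, hg, hfg]
  have : ∑ k, B (v.2.2 k • E k) g = 0 :=
    Finset.sum_eq_zero fun k _ => by rw [B_smul_left, B_comm (E k) g, hgE, mul_zero]
  rw [this]
  ring

omit hf hg hfg in
theorem nullMap_E (v : ℝ × ℝ × (Fin m → ℝ)) (l : Fin m) :
    B (nullMap f g E v) (E l) = v.2.2 l := by
  rw [nullMap_apply, B_add_left, B_add_left, B_smul_left, B_smul_left, B_sum_left, hperp, hgE]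
  have : ∑ k, B (v.2.2 k • E k) (E l) = v.2.2 l := by
    rw [Finset.sum_eq_single l]
    · rw [B_smul_left, hunit, mul_one]
    · intro k _ hk
      rw [B_smul_left, horth k l hk, mul_zero]
    · simp
  rw [this]
  ring

theorem nullMap_Q (v : ℝ × ℝ × (Fin m → ℝ)) :
    B (nullMap f g E v) (nullMap f g E v) = -2 * (v.1 * v.2.1) + ∑ k, v.2.2 k ^ 2 := by
  have e : B (nullMap f g E v) (nullMap f g E v) =
      v.1 * B (nullMap f g E v) g + v.2.1 * B (nullMap f g E v) f +
        ∑ k, v.2.2 k * B (nullMap f g E v) (E k) := by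
    conv_lhs => rw [nullMap_apply f g E v, B_add_right, B_add_right, B_smul_right, B_smul_right,
      B_sum_right]
    congr 1
    exact Finset.sum_congr rfl fun k _ => by rw [B_smul_right, nullMap_apply]
  rw [e, nullMap_f hf hfg hperp, nullMap_g hg hfg hgE]
  have : ∑ k, v.2.2 k * B (nullMap f g E v) (E k) = ∑ k, v.2.2 k ^ 2 :=
    Finset.sum_congr rfl fun k _ => by rw [nullMap_E hgE hunit horth hperp, sq]
  rw [this]
  ring

theorem nullMap_injective : Function.Injective (nullMap f g E) := by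
  rw [← LinearMap.ker_eq_bot, LinearMap.ker_eq_bot']
  intro v hv
  have h1 := nullMap_f hf hfg hperp v
  have h2 := nullMap_g hg hfg hgE v
  have h3 := nullMap_E hgE hunit horth hperp v
  rw [hv, B_zero_left] at h1 h2
  have h4 : ∀ l, v.2.2 l = 0 := by
    intro l
    rw [← h3 l, hv, B_zero_left]
  have e1 : v.1 = 0 := by linarith
  have e2 : v.2.1 = 0 := by linarith
  exact Prod.ext e1 (Prod.ext e2 (funext h4))

end coord

/-- null coordinates as a linear equivalence -/
theorem exists_nullEquiv {n : ℕ} (hn : 1 ≤ n) {f g : M n} {E : Fin (n - 1) → M n}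
    (hf : B f f = 0) (hg : B g g = 0) (hfg : B f g = -1) (hgE : ∀ k, B g (E k) = 0)
    (hunit : ∀ k, B (E k) (E k) = 1) (horth : ∀ k l, k ≠ l → B (E k) (E l) = 0)
    (hperp : ∀ k, B f (E k) = 0) :
    ∃ Φ : (ℝ × ℝ × (Fin (n - 1) → ℝ)) ≃L[ℝ] M n, ∀ v, Φ v = nullMap f g E v := by
  have hfr : Module.finrank ℝ (ℝ × ℝ × (Fin (n - 1) → ℝ)) = Module.finrank ℝ (M n) := by
    rw [finrank_M]
    simp
    omega
  refine ⟨(LinearEquiv.ofInjectiveOfFinrankEq (nullMap f g E)
    (nullMap_injective hf hg hfg hgE hunit horth hperp) hfr).toContinuousLinearEquiv, fun v => ?_⟩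
  rfl

instance instHaarR2 (m : ℕ) : (volume : Measure (ℝ × (Fin m → ℝ))).IsAddHaarMeasure := by
  rw [Measure.volume_eq_prod]
  infer_instance

instance instHaarR3 (m : ℕ) : (volume : Measure (ℝ × ℝ × (Fin m → ℝ))).IsAddHaarMeasure := by
  rw [Measure.volume_eq_prod]
  infer_instance

/-- transfer of integrability -/
theorem integrableOn_of_equiv {n : ℕ} {V : Type*} [NormedAddCommGroup V] [NormedSpace ℝ V]
    [FiniteDimensional ℝ V] [MeasureSpace V] [BorelSpace V] [(volume : Measure V).IsAddHaarMeasure]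
    (Φ : V ≃L[ℝ] M n) {S : Set (M n)} {h : M n → ℝ}
    (hh : IntegrableOn (fun v => h (Φ v)) (Φ ⁻¹' S)) : IntegrableOn h S := by
  have hm : MeasurableEmbedding (Φ : V → M n) := Φ.toHomeomorph.measurableEmbedding
  have h1 : IntegrableOn h S (Measure.map Φ (volume : Measure V)) :=
    hm.integrableOn_map_iff.2 hh
  have hH : (Measure.map Φ (volume : Measure V)).IsAddHaarMeasure :=
    Φ.isAddHaarMeasure_map _
  have h2 : (volume : Measure (M n)) =
      Measure.addHaarScalarFactor (volume : Measure (M n)) (Measure.map Φ (volume : Measure V)) •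
        (Measure.map Φ (volume : Measure V)) :=
    Measure.isAddLeftInvariant_eq_smul _ _
  rw [h2]
  unfold IntegrableOn
  rw [Measure.restrict_smul]
  exact h1.smul_measure_nnreal

/-- the model integral near a cusp -/
theorem integrableOn_model {m : ℕ} (hm : 1 ≤ m) (a : Fin m → ℝ) (ha : ∀ k, 0 < a k) {A : ℝ}
    (hA : 0 < A) :
    IntegrableOn (fun v : ℝ × ℝ × (Fin m → ℝ) =>
      Real.exp (-(v.1 / 2 * v.2.1)) * Real.exp (-(A / 2) * v.1 ^ 2))
      {v | 0 < v.1 ∧ 0 < v.2.1 ∧ v.2.2 ∈ Icc (fun k => -(a k * v.1)) (fun _ => (0 : ℝ))} := by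
  set S : Set (ℝ × ℝ × (Fin m → ℝ)) :=
    {v | 0 < v.1 ∧ 0 < v.2.1 ∧ v.2.2 ∈ Icc (fun k => -(a k * v.1)) (fun _ => (0 : ℝ))} with hS
  set h : ℝ × ℝ × (Fin m → ℝ) → ℝ := fun v =>
    Real.exp (-(v.1 / 2 * v.2.1)) * Real.exp (-(A / 2) * v.1 ^ 2) with hh
  have hSm : MeasurableSet S := by
    have e : S = {v | 0 < v.1} ∩ ({v | 0 < v.2.1} ∩
        ((⋂ k, {v : ℝ × ℝ × (Fin m → ℝ) | -(a k * v.1) ≤ v.2.2 k}) ∩
          (⋂ k, {v : ℝ × ℝ × (Fin m → ℝ) | v.2.2 k ≤ 0}))) := by
      ext v
      simp [hS, Pi.le_def]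
    rw [e]
    refine (measurableSet_lt measurable_const (by fun_prop)).inter
      ((measurableSet_lt measurable_const (by fun_prop)).inter (MeasurableSet.inter ?_ ?_))
    · exact MeasurableSet.iInter fun k => measurableSet_le (by fun_prop) (by fun_prop)
    · exact MeasurableSet.iInter fun k => measurableSet_le (by fun_prop) (by fun_prop)
  have hhm : Measurable h := by
    rw [hh]
    fun_prop
  have hnn : ∀ v, 0 ≤ h v := fun v => by rw [hh]; positivity
  set P : ℝ := ∏ k, a k with hP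
  have hP0 : 0 < P := Finset.prod_pos fun k _ => ha k
  -- the inner integral
  have hin : ∀ ξ α : ℝ, ∫⁻ X : Fin m → ℝ, S.indicator (fun v => ENNReal.ofReal (h v)) (ξ, α, X) =
      (Ioi (0 : ℝ)).indicator (fun ξ => (Ioi (0 : ℝ)).indicator (fun α : ℝ => ENNReal.ofReal
        (Real.exp (-(ξ / 2) * α)) * ENNReal.ofReal
          (P * ξ ^ m * Real.exp (-(A / 2) * ξ ^ 2))) α) ξ := by
    intro ξ α
    by_cases hξ : ξ ∈ Ioi (0 : ℝ)
    · by_cases hα : α ∈ Ioi (0 : ℝ)
      · rw [indicator_of_mem hξ, indicator_of_mem hα]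
        have e1 : ∀ X : Fin m → ℝ, S.indicator (fun v => ENNReal.ofReal (h v)) (ξ, α, X) =
            (Icc (fun k => -(a k * ξ)) (fun _ => (0 : ℝ))).indicator
              (fun _ => ENNReal.ofReal (h (ξ, α, 0))) X := by
          intro X
          by_cases hX : X ∈ Icc (fun k => -(a k * ξ)) (fun _ => (0 : ℝ))
          · have : ((ξ, α, X) : ℝ × ℝ × (Fin m → ℝ)) ∈ S := ⟨hξ, hα, hX⟩
            rw [indicator_of_mem this, indicator_of_mem hX]
          · have : ((ξ, α, X) : ℝ × ℝ × (Fin m → ℝ)) ∉ S := fun h' => hX h'.2.2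
            rw [indicator_of_notMem this, indicator_of_notMem hX]
        simp_rw [e1]
        rw [lintegral_indicator_const measurableSet_Icc, Real.volume_Icc_pi]
        have e2 : ∏ i, ENNReal.ofReal ((0 : ℝ) - -(a i * ξ)) = ENNReal.ofReal (P * ξ ^ m) := by
          rw [← ENNReal.ofReal_prod_of_nonneg]
          · congr 1
            simp_rw [zero_sub, neg_neg]
            rw [Finset.prod_mul_distrib, hP]
            simp
          · intro i _
            have hξ0 : (0 : ℝ) < ξ := hξ
            have := mul_pos (ha i) hξ0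
            linarith
        rw [e2, ← ENNReal.ofReal_mul (hnn _), ← ENNReal.ofReal_mul (Real.exp_pos _).le]
        congr 1
        rw [hh]
        simp only
        have e9 : -(ξ / 2) * α = -(ξ / 2 * α) := by ring
        rw [e9]
        ring
      · rw [indicator_of_mem hξ, indicator_of_notMem hα]
        have : ∀ X : Fin m → ℝ, S.indicator (fun v => ENNReal.ofReal (h v)) (ξ, α, X) = 0 :=
          fun X => indicator_of_notMem (fun h' => hα h'.2.1) _
        simp [this]
    · rw [indicator_of_notMem hξ]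
      have : ∀ X : Fin m → ℝ, S.indicator (fun v => ENNReal.ofReal (h v)) (ξ, α, X) = 0 :=
        fun X => indicator_of_notMem (fun h' => hξ h'.1) _
      simp [this]
  have hmid : ∀ ξ : ℝ, ∫⁻ α : ℝ, (Ioi (0 : ℝ)).indicator (fun ξ => (Ioi (0 : ℝ)).indicator
      (fun α : ℝ => ENNReal.ofReal
        (Real.exp (-(ξ / 2) * α)) * ENNReal.ofReal
          (P * ξ ^ m * Real.exp (-(A / 2) * ξ ^ 2))) α) ξ =
      (Ioi (0 : ℝ)).indicator (fun ξ => ENNReal.ofReal
        (2 * P * (ξ ^ ((m - 1 : ℕ) : ℝ) * Real.exp (-(A / 2) * ξ ^ 2)))) ξ := by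
    intro ξ
    by_cases hξ : ξ ∈ Ioi (0 : ℝ)
    · have hξ0 : (0 : ℝ) < ξ := hξ
      simp only [indicator_of_mem hξ]
      rw [lintegral_indicator measurableSet_Ioi, lintegral_mul_const _ (by fun_prop)]
      have e3 : ∫⁻ α in Ioi (0 : ℝ), ENNReal.ofReal (Real.exp (-(ξ / 2) * α)) =
          ENNReal.ofReal (2 / ξ) := by
        rw [← ofReal_integral_eq_lintegral_ofReal]
        · congr 1
          rw [integral_exp_mul_Ioi (by linarith)]
          simp
        · exact integrableOn_exp_mul_Ioi (by linarith) _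
        · exact Eventually.of_forall fun _ => (Real.exp_pos _).le
      rw [e3, ← ENNReal.ofReal_mul (by positivity)]
      congr 1
      rw [Real.rpow_natCast]
      have : ξ ^ m = ξ ^ (m - 1) * ξ := by
        rw [← pow_succ]
        congr 1
        omega
      rw [this]
      field_simp
    · simp only [indicator_of_notMem hξ]
      simp
  have hout : IntegrableOn (fun ξ : ℝ => 2 * P * (ξ ^ ((m - 1 : ℕ) : ℝ) *
      Real.exp (-(A / 2) * ξ ^ 2))) (Ioi 0) :=
    (integrableOn_rpow_mul_exp_neg_mul_sq (b := A / 2) (by linarith)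
      (s := ((m - 1 : ℕ) : ℝ)) (by
        have : (0 : ℝ) ≤ ((m - 1 : ℕ) : ℝ) := Nat.cast_nonneg _
        linarith)).const_mul _
  refine ⟨hhm.aestronglyMeasurable, ?_⟩
  rw [hasFiniteIntegral_iff_ofReal (Eventually.of_forall fun v => hnn v),
    ← lintegral_indicator hSm, Measure.volume_eq_prod, lintegral_prod _
      ((by fun_prop : Measurable fun v => ENNReal.ofReal (h v)).indicator hSm).aemeasurable]
  have e5 : ∀ ξ : ℝ, ∫⁻ w : ℝ × (Fin m → ℝ), S.indicator (fun v => ENNReal.ofReal (h v)) (ξ, w) =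
      (Ioi (0 : ℝ)).indicator (fun ξ => ENNReal.ofReal
        (2 * P * (ξ ^ ((m - 1 : ℕ) : ℝ) * Real.exp (-(A / 2) * ξ ^ 2)))) ξ := by
    intro ξ
    rw [Measure.volume_eq_prod, lintegral_prod
      (fun w : ℝ × (Fin m → ℝ) => S.indicator (fun v => ENNReal.ofReal (h v)) (ξ, w))
      ((((by fun_prop : Measurable fun v => ENNReal.ofReal (h v)).indicator hSm).comp
        measurable_prodMk_left).aemeasurable)]
    rw [← hmid ξ]
    exact lintegral_congr fun α => hin ξ α
  rw [lintegral_congr e5, lintegral_indicator measurableSet_Ioi]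
  have := hout.2
  rwa [hasFiniteIntegral_iff_ofReal] at this
  refine (ae_restrict_iff' measurableSet_Ioi).2 (Eventually.of_forall fun r hr => ?_)
  have hr0 : (0 : ℝ) < r := hr
  simp only [Pi.zero_apply]
  positivity

/-- integrability near a null direction -/
theorem integrableOn_cusp {n : ℕ} (hn : 2 ≤ n) {f g : M n} {E : Fin (n - 1) → M n}
    (hf : B f f = 0) (hg : B g g = 0) (hfg : B f g = -1) (hgE : ∀ k, B g (E k) = 0)
    (hunit : ∀ k, B (E k) (E k) = 1) (horth : ∀ k l, k ≠ l → B (E k) (E l) = 0)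
    (hperp : ∀ k, B f (E k) = 0) (a : Fin (n - 1) → ℝ) (ha : ∀ k, 0 < a k) :
    IntegrableOn (fun x => Real.exp (B x x))
      {x : M n | (∀ k, B x (E k) ≤ 0 ∧ a k * B x f - B x (E k) ≤ 0) ∧
        -((∑ k, a k ^ 2) * B x f) < -B x g} := by
  obtain ⟨Φ, hΦ⟩ := exists_nullEquiv (by omega) hf hg hfg hgE hunit horth hperp
  have : Nonempty (Fin (n - 1)) := ⟨⟨0, by omega⟩⟩
  set A : ℝ := ∑ k, a k ^ 2 with hA
  have hA0 : 0 < A := Finset.sum_pos (fun k _ => by have := ha k; positivity) Finset.univ_nonempty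
  refine integrableOn_of_equiv Φ ?_
  have hmod := integrableOn_model (m := n - 1) (by omega) a ha hA0
  set S : Set (ℝ × ℝ × (Fin (n - 1) → ℝ)) :=
    {v | 0 < v.1 ∧ 0 < v.2.1 ∧ v.2.2 ∈ Icc (fun k => -(a k * v.1)) (fun _ => (0 : ℝ))} with hS
  -- the preimage is contained in `S` up to a null set
  have hsub : ∀ v : ℝ × ℝ × (Fin (n - 1) → ℝ), Φ v ∈ {x : M n |
      (∀ k, B x (E k) ≤ 0 ∧ a k * B x f - B x (E k) ≤ 0) ∧ -((∑ k, a k ^ 2) * B x f) < -B x g} →
      0 ≤ v.1 ∧ A * v.1 < v.2.1 ∧ ∀ k, -(a k * v.1) ≤ v.2.2 k ∧ v.2.2 k ≤ 0 := by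
    intro v hv
    obtain ⟨h1, h2⟩ := hv
    simp only [hΦ, nullMap_f hf hfg hperp, nullMap_g hg hfg hgE,
      nullMap_E hgE hunit horth hperp] at h1 h2
    refine ⟨?_, by rw [hA]; linarith, fun k => ⟨by linarith [(h1 k).2], (h1 k).1⟩⟩
    obtain ⟨k⟩ := ‹Nonempty (Fin (n - 1))›
    have h3 := h1 k
    have h4 : 0 ≤ a k * v.1 := by linarith [h3.1, h3.2]
    exact nonneg_of_mul_nonneg_right h4 (ha k)
  have hbound : ∀ v : ℝ × ℝ × (Fin (n - 1) → ℝ), (0 ≤ v.1 ∧ A * v.1 < v.2.1 ∧
      ∀ k, -(a k * v.1) ≤ v.2.2 k ∧ v.2.2 k ≤ 0) →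
      Real.exp (B (Φ v) (Φ v)) ≤
        Real.exp (-(v.1 / 2 * v.2.1)) * Real.exp (-(A / 2) * v.1 ^ 2) := by
    intro v ⟨h0, h1, h2⟩
    rw [hΦ, nullMap_Q hf hg hfg hgE hunit horth hperp, ← Real.exp_add]
    apply Real.exp_le_exp.2
    have h3 : ∑ k, v.2.2 k ^ 2 ≤ A * v.1 ^ 2 := by
      rw [hA, Finset.sum_mul]
      refine Finset.sum_le_sum fun k _ => ?_
      have := h2 k
      nlinarith [this.1, this.2, ha k]
    have h4 : A * v.1 * v.1 ≤ v.2.1 * v.1 := mul_le_mul_of_nonneg_right h1.le h0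
    nlinarith
  -- measurability
  have hcont : Continuous fun v => Real.exp (B (Φ v) (Φ v)) :=
    Real.continuous_exp.comp (continuous_Q.comp Φ.continuous)
  have hnull : (volume : Measure (ℝ × ℝ × (Fin (n - 1) → ℝ))) {v | v.1 = 0} = 0 := by
    have : {v : ℝ × ℝ × (Fin (n - 1) → ℝ) | v.1 = 0} = ({0} : Set ℝ) ×ˢ univ := by
      ext v; simp
    rw [this, Measure.volume_eq_prod, Measure.prod_prod]
    simp
  have hI : IntegrableOn (fun v => Real.exp (B (Φ v) (Φ v))) ((Φ ⁻¹' {x : M n |
      (∀ k, B x (E k) ≤ 0 ∧ a k * B x f - B x (E k) ≤ 0) ∧ -((∑ k, a k ^ 2) * B x f) < -B x g}) ∩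
      {v | v.1 = 0}ᶜ) := by
    have hsubS : (Φ ⁻¹' {x : M n | (∀ k, B x (E k) ≤ 0 ∧ a k * B x f - B x (E k) ≤ 0) ∧
        -((∑ k, a k ^ 2) * B x f) < -B x g}) ∩ {v | v.1 = 0}ᶜ ⊆ S := by
      rintro v ⟨hv, hv0⟩
      obtain ⟨h0, h1, h2⟩ := hsub v hv
      have h3 : 0 < v.1 := lt_of_le_of_ne h0 (Ne.symm hv0)
      exact ⟨h3, lt_trans (mul_pos hA0 h3) h1, fun k => (h2 k).1, fun k => (h2 k).2⟩
    refine Integrable.mono' (hmod.mono_set hsubS) hcont.aestronglyMeasurable ?_
    refine ae_restrict_of_forall_mem ?_ ?_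
    · refine MeasurableSet.inter (Φ.continuous.measurable ?_) ?_
      · have e : {x : M n | (∀ k, B x (E k) ≤ 0 ∧ a k * B x f - B x (E k) ≤ 0) ∧
            -((∑ k, a k ^ 2) * B x f) < -B x g} =
            (⋂ k, ({x : M n | B x (E k) ≤ 0} ∩ {x : M n | a k * B x f - B x (E k) ≤ 0})) ∩
              {x : M n | -((∑ k, a k ^ 2) * B x f) < -B x g} := by
          ext x
          simp
        rw [e]
        have hc1 := fun k => (continuous_B_left (E k)).measurable
        have hc2 := (continuous_B_left f).measurable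
        have hc3 := (continuous_B_left g).measurable
        refine (MeasurableSet.iInter fun k => ?_).inter ?_
        · exact (measurableSet_le (hc1 k) measurable_const).inter
            (measurableSet_le ((hc2.const_mul (a k)).sub (hc1 k)) measurable_const)
        · exact measurableSet_lt (hc2.const_mul _).neg hc3.neg
      · exact (measurableSet_eq_fun measurable_fst measurable_const).compl
    · intro v hv
      rw [Real.norm_eq_abs, abs_of_pos (Real.exp_pos _)]
      exact hbound v (hsub v hv.1)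
  have hN : IntegrableOn (fun v => Real.exp (B (Φ v) (Φ v)))
      {v : ℝ × ℝ × (Fin (n - 1) → ℝ) | v.1 = 0} := by
    unfold IntegrableOn
    rw [Measure.restrict_eq_zero.2 hnull]
    exact integrable_zero_measure
  refine (hI.union hN).mono_set fun v hv => ?_
  by_cases h : v.1 = 0
  · exact Or.inr h
  · exact Or.inl ⟨hv, h⟩

section main
variable {n : ℕ} {ι : Type} [Fintype ι] [DecidableEq ι] (R : RASys n ι)

/-- Block I with the frame lemma as a hypothesis. -/
theorem integrableOn_exp_of_frame (hn : 2 ≤ n)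
    (hframe : ∀ f : M n, f ≠ 0 → B f f = 0 → f ∈ R.K →
      ∃ (E E' : Fin (n - 1) → ι) (a : Fin (n - 1) → ℝ),
        (∀ k, 0 < a k) ∧ (∀ k, R.e (E' k) = a k • f - R.e (E k)) ∧
        (∀ k, B f (R.e (E k)) = 0) ∧ (∀ k l, k ≠ l → B (R.e (E k)) (R.e (E l)) = 0)) :
    IntegrableOn (fun x => Real.exp (B x x)) R.K := by
  set P : Set (M n) → Prop := fun s =>
    IntegrableOn (fun x : M n => Real.exp (B x x)) {x | x ∈ R.K ∧ x ≠ 0 ∧ ‖x‖⁻¹ • x ∈ s} with hP
  have hKsmul : ∀ x ∈ R.K, ∀ t : ℝ, 0 < t → t • x ∈ R.K := by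
    intro x hx t ht i
    rw [B_smul_left]
    exact mul_nonpos_of_nonneg_of_nonpos ht.le (hx i)
  have hmain : P (R.K ∩ Metric.sphere 0 1) := by
    have hcomp : IsCompact (R.K ∩ Metric.sphere (0 : M n) 1) :=
      (isCompact_sphere (0 : M n) 1).inter_left R.isClosed_K
    refine hcomp.induction_on (p := P) ?_ ?_ ?_ ?_
    · simp only [hP, mem_empty_iff_false, and_false]
      exact integrableOn_empty
    · intro s t hst ht
      exact ht.mono_set fun x hx => ⟨hx.1, hx.2.1, hst hx.2.2⟩
    · intro s t hs ht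
      refine (hs.union ht).mono_set fun x hx => ?_
      rcases hx.2.2 with h | h
      · exact Or.inl ⟨hx.1, hx.2.1, h⟩
      · exact Or.inr ⟨hx.1, hx.2.1, h⟩
    · rintro θ ⟨hθK, hθ1⟩
      have hθ0 : θ ≠ 0 := by
        rintro rfl
        simp at hθ1
      rcases (R.cone θ hθK).lt_or_eq with hneg | hzero
      · -- timelike direction
        set c : ℝ := -(B θ θ) / (2 * E2 θ) with hc
        have hE : 0 < E2 θ := E2_pos_of_ne hθ0
        have hc0 : 0 < c := by
          rw [hc]
          exact div_pos (by linarith) (by linarith)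
        refine ⟨{y | c * E2 y < -(B y y)}, mem_nhdsWithin_of_mem_nhds
          ((isOpen_lt (continuous_const.mul continuous_E2) continuous_Q.neg).mem_nhds ?_), ?_⟩
        · show c * E2 θ < -(B θ θ)
          rw [hc]
          field_simp
          linarith
        · have h1 := (integrable_exp_neg_E2 (n := n) hc0).integrableOn
            (s := {x | x ∈ R.K ∧ x ≠ 0 ∧ ‖x‖⁻¹ • x ∈ {y : M n | c * E2 y < -(B y y)}})
          have hmeas : MeasurableSet
              {x | x ∈ R.K ∧ x ≠ 0 ∧ ‖x‖⁻¹ • x ∈ {y : M n | c * E2 y < -(B y y)}} := by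
            have e : {x | x ∈ R.K ∧ x ≠ 0 ∧ ‖x‖⁻¹ • x ∈ {y : M n | c * E2 y < -(B y y)}} =
                R.K ∩ ({0}ᶜ ∩ {x : M n | c * E2 x < -(B x x)}) := by
              ext x
              simp only [mem_inter_iff, mem_compl_iff, mem_singleton_iff]
              refine and_congr_right fun _ => and_congr_right fun hx0 => ?_
              show c * E2 (‖x‖⁻¹ • x) < -(B (‖x‖⁻¹ • x) (‖x‖⁻¹ • x)) ↔ c * E2 x < -(B x x)
              rw [E2_smul, B_smul_left, B_smul_right]
              have hx : 0 < ‖x‖⁻¹ ^ 2 := by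
                have := norm_pos_iff.2 hx0
                positivity
              constructor
              · intro h
                have : ‖x‖⁻¹ ^ 2 * (c * E2 x) < ‖x‖⁻¹ ^ 2 * (-(B x x)) := by nlinarith
                exact lt_of_mul_lt_mul_left this hx.le
              · intro h
                have := mul_lt_mul_of_pos_left h hx
                nlinarith
            rw [e]
            exact R.measurableSet_K.inter ((measurableSet_singleton _).compl.inter
              (measurableSet_lt (continuous_const.mul continuous_E2).measurable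
                continuous_Q.neg.measurable))
          refine Integrable.mono' h1
            (Real.continuous_exp.comp continuous_Q).aestronglyMeasurable ?_
          refine ae_restrict_of_forall_mem hmeas ?_
          rintro x ⟨-, hx0, hx⟩
          rw [Real.norm_eq_abs, abs_of_pos (Real.exp_pos _)]
          apply Real.exp_le_exp.2
          have h2 : c * E2 (‖x‖⁻¹ • x) < -(B (‖x‖⁻¹ • x) (‖x‖⁻¹ • x)) := hx
          rw [E2_smul, B_smul_left, B_smul_right] at h2
          have hx' : 0 < ‖x‖⁻¹ ^ 2 := by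
            have := norm_pos_iff.2 hx0
            positivity
          have : ‖x‖⁻¹ ^ 2 * (c * E2 x) < ‖x‖⁻¹ ^ 2 * (-(B x x)) := by nlinarith
          have := lt_of_mul_lt_mul_left this hx'.le
          linarith
      · -- null direction
        obtain ⟨E, E', a, ha, hE', hfE, hEE⟩ := hframe θ hθ0 hzero hθK
        obtain ⟨g, hg, hfg, hgE⟩ := exists_partner θ hθ0 hzero (fun k => R.e (E k))
          (fun k => R.unit _) hEE hfE
        have hcusp := integrableOn_cusp hn hzero hg hfg hgE (fun k => R.unit _) hEE hfE a ha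
        set A : ℝ := ∑ k, a k ^ 2 with hA
        refine ⟨{y | -(A * B y θ) < -B y g}, mem_nhdsWithin_of_mem_nhds
          ((isOpen_lt (continuous_const.mul (continuous_B_left θ)).neg
            (continuous_B_left g).neg).mem_nhds ?_), ?_⟩
        · show -(A * B θ θ) < -B θ g
          rw [hzero, hfg]
          norm_num
        · refine hcusp.mono_set ?_
          rintro x ⟨hxK, hx0, hx⟩
          refine ⟨fun k => ⟨hxK (E k), ?_⟩, ?_⟩
          · have := hxK (E' k)
            rw [hE', B_sub_right, B_smul_right] at this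
            exact this
          · have h2 : -(A * B (‖x‖⁻¹ • x) θ) < -B (‖x‖⁻¹ • x) g := hx
            rw [B_smul_left, B_smul_left] at h2
            have hx' : 0 < ‖x‖⁻¹ := inv_pos.2 (norm_pos_iff.2 hx0)
            have : ‖x‖⁻¹ * (-(A * B x θ)) < ‖x‖⁻¹ * (-B x g) := by nlinarith
            exact lt_of_mul_lt_mul_left this hx'.le
  have hzero : IntegrableOn (fun x : M n => Real.exp (B x x)) {0} := by
    unfold IntegrableOn
    rw [Measure.restrict_eq_zero.2 (measure_singleton _)]
    exact integrable_zero_measure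
  refine (hmain.union hzero).mono_set fun x hx => ?_
  by_cases h : x = 0
  · exact Or.inr h
  · refine Or.inl ⟨hx, h, hKsmul x hx _ (inv_pos.2 (norm_pos_iff.2 h)), ?_⟩
    rw [mem_sphere_zero_iff_norm, norm_smul, norm_inv, norm_norm]
    exact inv_mul_cancel₀ (norm_ne_zero_iff.2 h)

end main

end Pool.Agent.RA
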