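import Pool.Agent.Lib_helper16.RA.FaceIv

/-! MP_20f8ce_gt : counting parallel pairs of walls. -/

set_option autoImplicit false

open Finset

namespace Pool.Agent.RA
variable {n : ℕ} {ι : Type} [Fintype ι] [DecidableEq ι]

theorem par_count_all (hn : 2 ≤ n) (R : RASys n ι) :
    ((univ ×ˢ univ : Finset (ι × ι)).filter (fun q => R.G q.1 q.2 = -1)).card =
      2 * (n - 1) * (iv R.G).card := by
  classical
  rw [card_eq_sum_card_fiberwise (f := fun q : ι × ι => star R.G q.1 q.2) (t := iv R.G)]
  · rw [sum_const_nat (m := 2 * (n - 1)), mul_comm]
    intro v hv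
    obtain ⟨f, hf⟩ := (mem_iv (R := R) hn).1 hv
    obtain ⟨E, E', a, ha, hE', hfE, hEE, hA⟩ :=
      exists_frame R (by omega : 1 ≤ n) hf.ne hf.iso hf.memK
    have hGk : ∀ k, R.G (E k) (E' k) = -1 := by
      intro k
      unfold RASys.G
      rw [hE', B_sub_right, B_smul_right, B_comm _ f, hfE, R.unit]
      norm_num
    have hGk' : ∀ k, R.G (E' k) (E k) = -1 := fun k => by rw [R.G_comm]; exact hGk k
    have hstar : ∀ k, star R.G (E k) (E' k) = v := by
      intro k
      ext l
      simp only [star, mem_filter, mem_univ, true_and]
      rw [hf.mem]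
      unfold RASys.G
      rw [hE', B_sub_right, B_smul_right, B_comm (R.e l) f]
      have := (ha k).ne'
      constructor
      · intro h
        have h1 : a k * B f (R.e l) = 0 := by linarith
        exact (mul_eq_zero.1 h1).resolve_left this
      · intro h
        rw [h]
        ring
    have hstar' : ∀ k, star R.G (E' k) (E k) = v := by
      intro k
      rw [← hstar k]
      ext l
      simp only [star, mem_filter, mem_univ, true_and]
      rw [add_comm]
    have hne : ∀ k, E k ≠ E' k := by
      intro k h
      have h1 := hGk k
      rw [← h, R.G_self] at h1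
      norm_num at h1
    -- the bijection
    have hcard : (univ : Finset (Fin (n - 1) × Bool)).card = 2 * (n - 1) := by
      rw [card_univ, Fintype.card_prod, Fintype.card_fin, Fintype.card_bool, mul_comm]
    rw [← hcard]
    symm
    refine card_bij (fun p _ => if p.2 then (E p.1, E' p.1) else (E' p.1, E p.1)) ?_ ?_ ?_
    · rintro ⟨k, b⟩ -
      cases b
      · simp [hGk', hstar']
      · simp [hGk, hstar]
    · have key : ∀ k l : Fin (n - 1), ∀ i j : ι, (i = E k ∨ i = E' k) → (j = E l ∨ j = E' l) →
          i = j → k = l := by
        intro k l i j hi hj hij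
        by_contra hkl
        have h1 := frame_perp hf.iso hE' hfE hEE hkl hi hj
        rw [hij, R.G_self] at h1
        norm_num at h1
      rintro ⟨k, b⟩ - ⟨l, c⟩ - h
      cases b <;> cases c
      · simp only [Bool.false_eq_true, if_false, Prod.mk.injEq] at h
        rw [key k l _ _ (Or.inl rfl) (Or.inl rfl) h.2]
      · simp only [Bool.false_eq_true, if_false, if_true, Prod.mk.injEq] at h
        have hkl := key k l _ _ (Or.inl rfl) (Or.inr rfl) h.2
        subst hkl
        exact absurd h.2 (hne k)
      · simp only [Bool.false_eq_true, if_false, if_true, Prod.mk.injEq] at h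
        have hkl := key k l _ _ (Or.inl rfl) (Or.inr rfl) h.1
        subst hkl
        exact absurd h.1 (hne k)
      · simp only [if_true, Prod.mk.injEq] at h
        rw [key k l _ _ (Or.inl rfl) (Or.inl rfl) h.1]
    · rintro ⟨i, j⟩ hij
      simp only [mem_filter, mem_product, mem_univ, and_self, true_and] at hij
      obtain ⟨hG, hs⟩ := hij
      have hi : i ∈ v := by
        rw [← hs]
        simp only [star, mem_filter, mem_univ, true_and]
        rw [R.G_self, hG]
        norm_num
      have hj : j ∈ v := by
        rw [← hs]
        simp only [star, mem_filter, mem_univ, true_and]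
        rw [R.G_self, R.G_comm, hG]
        norm_num
      obtain ⟨k, hk⟩ := (hA i).1 ((hf.mem i).1 hi)
      obtain ⟨l, hl⟩ := (hA j).1 ((hf.mem j).1 hj)
      have hkl : k = l := by
        by_contra hkl
        have h1 := frame_perp hf.iso hE' hfE hEE hkl hk hl
        rw [hG] at h1
        norm_num at h1
      subst hkl
      have hij : i ≠ j := by
        rintro rfl
        rw [R.G_self] at hG
        norm_num at hG
      rcases hk with hk | hk
      · rcases hl with hl | hl
        · exact absurd (hk.trans hl.symm) hij
        · exact ⟨(k, true), mem_univ _, by simp [hk, hl]⟩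
      · rcases hl with hl | hl
        · exact ⟨(k, false), mem_univ _, by simp [hk, hl]⟩
        · exact absurd (hk.trans hl.symm) hij
  · intro q hq
    simp only [coe_filter, mem_product, mem_univ, and_self, true_and, Set.mem_setOf_eq] at hq
    simp only [iv, coe_image, Set.mem_image, coe_filter, mem_univ, true_and, Set.mem_setOf_eq]
    exact ⟨q, hq, rfl⟩

end Pool.Agent.RA
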