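import Mathlib

/-!
# Automorphisms of the centre of an integral group ring: basic tools
-/

set_option autoImplicit false
open Classical

namespace Helper61.Berman

/-- The centre of the integral group ring. -/
abbrev ZC (G : Type*) [Group G] := ↥(Subring.center (MonoidAlgebra ℤ G))

section Basic

variable {G : Type*} [Group G]

/-- coefficient function -/
def cf (x : ZC G) (g : G) : ℤ := (x : MonoidAlgebra ℤ G).coeff g

theorem ext_cf {x y : ZC G} (h : ∀ g, cf x g = cf y g) : x = y := by
  apply Subtype.ext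
  apply MonoidAlgebra.coeff_injective
  ext g
  exact h g

@[simp] theorem cf_add (x y : ZC G) (g : G) : cf (x + y) g = cf x g + cf y g := rfl
@[simp] theorem cf_sub (x y : ZC G) (g : G) : cf (x - y) g = cf x g - cf y g := rfl
@[simp] theorem cf_neg (x : ZC G) (g : G) : cf (-x) g = - cf x g := rfl
@[simp] theorem cf_zero (g : G) : cf (0 : ZC G) g = 0 := rfl
theorem cf_smul (n : ℤ) (x : ZC G) (g : G) : cf (n • x) g = n * cf x g := by
  have h : ((n • x : ZC G) : MonoidAlgebra ℤ G) = n • (x : MonoidAlgebra ℤ G) := rfl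
  rw [cf, h, MonoidAlgebra.coeff_smul_apply]
  rfl

theorem cf_one (g : G) : cf (1 : ZC G) g = if g = 1 then 1 else 0 := by
  simp only [cf, OneMemClass.coe_one, MonoidAlgebra.one_def, MonoidAlgebra.coeff_single]
  rw [Finsupp.single_apply]
  simp [eq_comm]

theorem cf_conj (x : ZC G) (h g : G) : cf x (h * g * h⁻¹) = cf x g := by
  have hx := (Subring.mem_center_iff.mp x.2) (MonoidAlgebra.single h 1)
  have h1 := congrArg (fun z : MonoidAlgebra ℤ G => z.coeff (h * g)) hx
  simp only [MonoidAlgebra.coeff_single_mul_apply, MonoidAlgebra.coeff_mul_single_apply,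
    one_mul, mul_one, inv_mul_cancel_left] at h1
  exact h1.symm

theorem cf_isConj (x : ZC G) {a b : G} (h : IsConj a b) : cf x a = cf x b := by
  obtain ⟨c, hc⟩ := isConj_iff.mp h
  rw [← hc, cf_conj]

theorem cf_mk_eq (x : ZC G) {a b : G} (h : ConjClasses.mk a = ConjClasses.mk b) :
    cf x a = cf x b := cf_isConj x (ConjClasses.mk_eq_mk_iff_isConj.mp h)

end Basic

section Fin

variable {G : Type*} [Group G] [Fintype G]

theorem coeff_mul_left (x y : MonoidAlgebra ℤ G) (g : G) :
    (x * y).coeff g = ∑ h, x.coeff h * y.coeff (h⁻¹ * g) := by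
  rw [MonoidAlgebra.coeff_mul_apply_left, Finsupp.sum_fintype]
  intro i
  simp

theorem coeff_mul_right (x y : MonoidAlgebra ℤ G) (g : G) :
    (x * y).coeff g = ∑ h, x.coeff (g * h⁻¹) * y.coeff h := by
  rw [MonoidAlgebra.coeff_mul_apply_right, Finsupp.sum_fintype]
  intro i
  simp

theorem cf_mul (x y : ZC G) (g : G) :
    cf (x * y) g = ∑ h, cf x h * cf y (h⁻¹ * g) := coeff_mul_left _ _ _

/-- the central element with given conjugation invariant coefficient function -/
noncomputable def mk (f : G → ℤ) (hf : ∀ h g, f (h * g * h⁻¹) = f g) : ZC G :=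
  ⟨MonoidAlgebra.ofCoeff (Finsupp.equivFunOnFinite.symm f), by
    rw [Subring.mem_center_iff]
    intro y
    apply MonoidAlgebra.coeff_injective
    ext a
    rw [coeff_mul_left, coeff_mul_right]
    apply Finset.sum_congr rfl
    intro h _
    simp only [Finsupp.equivFunOnFinite_symm_apply_apply]
    rw [mul_comm]
    congr 1
    have := hf h (h⁻¹ * a)
    rw [mul_inv_cancel_left] at this
    exact this.symm⟩

@[simp] theorem cf_mk (f : G → ℤ) (hf : ∀ h g, f (h * g * h⁻¹) = f g) (g : G) :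
    cf (mk f hf) g = f g := rfl

/-- the involution on the centre -/
noncomputable def st (x : ZC G) : ZC G := mk (fun g => cf x g⁻¹) (by
  intro h g
  rw [← cf_conj x h g⁻¹]
  congr 1
  group)

@[simp] theorem cf_st (x : ZC G) (g : G) : cf (st x) g = cf x g⁻¹ := rfl

theorem cf_mul_st (x y : ZC G) (g : G) :
    cf (x * st y) g = ∑ h, cf x (g * h) * cf y h := by
  rw [cf_mul]
  simp only [cf_st]
  refine (Fintype.sum_equiv (Equiv.mulLeft g) _ _ ?_).symm
  intro h
  simp

theorem cf_mul_st_one (x y : ZC G) : cf (x * st y) 1 = ∑ h, cf x h * cf y h := by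
  rw [cf_mul_st]; simp

/-- The sum of a conjugacy class -/
noncomputable def cs (c : ConjClasses G) : ZC G :=
  mk (fun g => if ConjClasses.mk g = c then 1 else 0) (by
    intro h g
    have : ConjClasses.mk (h * g * h⁻¹) = ConjClasses.mk g := by
      rw [ConjClasses.mk_eq_mk_iff_isConj, isConj_comm, isConj_iff]
      exact ⟨h, rfl⟩
    rw [this])

@[simp] theorem cf_cs (c : ConjClasses G) (g : G) :
    cf (cs c) g = if ConjClasses.mk g = c then 1 else 0 := rfl

theorem coe_cs (c : ConjClasses G) : ((cs c : ZC G) : MonoidAlgebra ℤ G) =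
    ∑ g ∈ Finset.univ.filter (fun g : G => ConjClasses.mk g = c),
              MonoidAlgebra.single g (1 : ℤ) := by
  apply MonoidAlgebra.coeff_injective
  ext g
  have : ((cs c : ZC G) : MonoidAlgebra ℤ G).coeff g = if ConjClasses.mk g = c then 1 else 0 := rfl
  rw [this, MonoidAlgebra.coeff_sum]
  simp only [MonoidAlgebra.coeff_single, Finsupp.coe_finsetSum, Finset.sum_apply,
    Finsupp.single_apply]
  rw [Finset.sum_filter]
  rw [Finset.sum_eq_single g]
  · simp
  · intro b _ hb
    simp [hb]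
  · simp

omit [Fintype G] in
theorem cf_sum {ι : Type*} (s : Finset ι) (f : ι → ZC G) (g : G) :
    cf (∑ i ∈ s, f i) g = ∑ i ∈ s, cf (f i) g := by
  induction s using Finset.induction_on with
  | empty => simp
  | insert a s ha ih => rw [Finset.sum_insert ha, Finset.sum_insert ha, cf_add, ih]

noncomputable instance : Fintype (ConjClasses G) := Fintype.ofFinite _

theorem decomp (x : ZC G) : x = ∑ c : ConjClasses G, (cf x (Quotient.out c)) • cs c := by
  apply ext_cf
  intro g
  rw [cf_sum]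
  simp only [cf_smul, cf_cs, mul_ite, mul_one, mul_zero]
  rw [Finset.sum_ite_eq]
  simp only [Finset.mem_univ, if_true]
  apply cf_mk_eq
  exact (Quotient.out_eq (ConjClasses.mk g)).symm

/-- ℓ¹-norm -/
noncomputable def n1 (x : ZC G) : ℤ := ∑ g, |cf x g|

theorem n1_nonneg (x : ZC G) : 0 ≤ n1 x := Finset.sum_nonneg (fun _ _ => abs_nonneg _)

theorem n1_add_le (x y : ZC G) : n1 (x + y) ≤ n1 x + n1 y := by
  unfold n1
  rw [← Finset.sum_add_distrib]
  exact Finset.sum_le_sum (fun g _ => abs_add_le _ _)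

theorem n1_smul (n : ℤ) (x : ZC G) : n1 (n • x) = |n| * n1 x := by
  unfold n1
  rw [Finset.mul_sum]
  apply Finset.sum_congr rfl
  intro g _
  rw [cf_smul, abs_mul]

theorem n1_zero : n1 (0 : ZC G) = 0 := by simp [n1]

theorem n1_sum_le {ι : Type*} (s : Finset ι) (f : ι → ZC G) :
    n1 (∑ i ∈ s, f i) ≤ ∑ i ∈ s, n1 (f i) := by
  induction s using Finset.induction_on with
  | empty => simp [n1_zero]
  | insert a s ha ih =>
    rw [Finset.sum_insert ha, Finset.sum_insert ha]
    exact (n1_add_le _ _).trans (by linarith)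

theorem n1_decomp (x : ZC G) :
    n1 x = ∑ c : ConjClasses G, |cf x (Quotient.out c)| * n1 (cs c) := by
  have h : ∀ g, |cf x g| = ∑ c : ConjClasses G, |cf x (Quotient.out c)| * |cf (cs c) g| := by
    intro g
    simp only [cf_cs]
    rw [Finset.sum_eq_single (ConjClasses.mk g)]
    · simp only [if_true, abs_one, mul_one]
      congr 1
      apply cf_mk_eq
      exact (Quotient.out_eq (ConjClasses.mk g)).symm
    · intro b _ hb
      simp [Ne.symm hb]
    · simp
  unfold n1
  rw [Finset.sum_congr rfl (fun g _ => h g), Finset.sum_comm]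
  apply Finset.sum_congr rfl
  intro c _
  rw [Finset.mul_sum]

/-! ### Frobenius -/

/-- regular representation mod q -/
def M (q : ℕ) (x : MonoidAlgebra ℤ G) : Matrix G G (ZMod q) :=
  Matrix.of fun g h => ((x.coeff (g * h⁻¹) : ℤ) : ZMod q)

omit [Fintype G] in
theorem M_one (q : ℕ) : M q (1 : MonoidAlgebra ℤ G) = 1 := by
  ext g h
  simp only [M, Matrix.of_apply, MonoidAlgebra.one_def, MonoidAlgebra.coeff_single,
    Finsupp.single_apply, Matrix.one_apply]
  by_cases hgh : g = h
  · subst hgh; simp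
  · have : ¬ (1 = g * h⁻¹) := fun h' => hgh (mul_inv_eq_one.mp h'.symm)
    simp [hgh, this]

theorem M_mul (q : ℕ) (x y : MonoidAlgebra ℤ G) : M q (x * y) = M q x * M q y := by
  ext g h
  simp only [M, Matrix.of_apply, Matrix.mul_apply]
  rw [coeff_mul_right]
  push_cast
  refine (Fintype.sum_equiv (Equiv.mulRight h⁻¹) _ _ ?_).symm
  intro k
  simp

theorem M_pow (q : ℕ) (x : MonoidAlgebra ℤ G) (n : ℕ) : M q (x ^ n) = M q x ^ n := by
  induction n with
  | zero => simp [M_one]
  | succ n ih => rw [pow_succ, pow_succ, M_mul, ih]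

theorem M_trace (q : ℕ) (x : MonoidAlgebra ℤ G) :
    (M q x).trace = (Fintype.card G : ZMod q) * ((x.coeff 1 : ℤ) : ZMod q) := by
  simp [Matrix.trace, M]

theorem coeff_one_pow (q : ℕ) [Fact q.Prime] (hq : ¬ q ∣ Fintype.card G)
    (x : MonoidAlgebra ℤ G) :
    (((x ^ q).coeff 1 : ℤ) : ZMod q) = ((x.coeff 1 : ℤ) : ZMod q) := by
  have h1 := M_trace q (x ^ q)
  rw [M_pow, ZMod.trace_pow_card, M_trace, ZMod.pow_card] at h1
  have hu : (Fintype.card G : ZMod q) ≠ 0 := by
    rw [Ne, ZMod.natCast_eq_zero_iff]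
    exact hq
  exact (mul_left_cancel₀ hu h1).symm

theorem frob (q : ℕ) [Fact q.Prime] (hq : Fintype.card G ∣ q + 1) (x : ZC G) (k : G) :
    ((cf (x ^ q) k : ℤ) : ZMod q) = ((cf x k⁻¹ : ℤ) : ZMod q) := by
  have hnd : ¬ q ∣ Fintype.card G := by
    intro h
    have h2 : q ∣ q + 1 := h.trans hq
    have h3 : q ∣ 1 := (Nat.dvd_add_right (dvd_refl q)).mp h2
    exact (Fact.out : q.Prime).one_lt.ne' (Nat.dvd_one.mp h3)
  have hcomm : Commute (x : MonoidAlgebra ℤ G) (MonoidAlgebra.single k 1) :=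
    ((Subring.mem_center_iff.mp x.2) _).symm
  have hk : k ^ q = k⁻¹ := by
    have : k ^ (q + 1) = 1 := by
      obtain ⟨m, hm⟩ := hq
      rw [hm, pow_mul, pow_card_eq_one, one_pow]
    rw [pow_succ] at this
    exact eq_inv_of_mul_eq_one_left this
  have h := coeff_one_pow q hnd ((x : MonoidAlgebra ℤ G) * MonoidAlgebra.single k 1)
  rw [hcomm.mul_pow, MonoidAlgebra.single_pow, hk] at h
  rw [MonoidAlgebra.coeff_mul_single_apply, MonoidAlgebra.coeff_mul_single_apply] at h
  simp only [one_pow, mul_one, one_mul, inv_inv] at h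
  exact h

/-- every automorphism of the centre commutes with the involution -/
theorem map_st (φ : ZC G →+* ZC G) (x : ZC G) : φ (st x) = st (φ x) := by
  apply ext_cf
  intro g
  by_contra hne
  set d := cf (φ (st x)) g - cf (st (φ x)) g with hd
  have hd0 : d ≠ 0 := sub_ne_zero.mpr hne
  have : NeZero (Fintype.card G) := ⟨Fintype.card_ne_zero⟩
  obtain ⟨q, hqn, hqp, hqm⟩ := Nat.forall_exists_prime_gt_and_eq_mod
    (q := Fintype.card G) (a := -1) (isUnit_one.neg) d.natAbs
  have : Fact q.Prime := ⟨hqp⟩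
  have hq : Fintype.card G ∣ q + 1 := by
    rw [← ZMod.natCast_eq_zero_iff]
    push_cast
    rw [hqm]; simp
  have hdiv : ∀ (y : ZC G) k, (q : ℤ) ∣ cf (st y) k - cf (y ^ q) k := by
    intro y k
    rw [← ZMod.intCast_zmod_eq_zero_iff_dvd]
    push_cast
    rw [frob q hq, cf_st, sub_self]
  let w : ZC G := mk (fun k => (cf (st x) k - cf (x ^ q) k) / q) (by
    intro h k
    rw [cf_conj, cf_conj])
  have hw : st x = x ^ q + (q : ℤ) • w := by
    apply ext_cf
    intro k
    rw [cf_add, cf_smul, cf_mk, Int.mul_ediv_cancel' (hdiv x k)]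
    ring
  have h1 : φ (st x) = (φ x) ^ q + (q : ℤ) • φ w := by
    rw [hw, map_add, map_pow, map_zsmul]
  have h2 : (q : ℤ) ∣ d := by
    have h3 := hdiv (φ x) g
    have h4 : d = (q : ℤ) * cf (φ w) g - (cf (st (φ x)) g - cf (φ x ^ q) g) := by
      rw [hd, h1, cf_add, cf_smul]; ring
    rw [h4]
    exact dvd_sub (dvd_mul_right _ _) h3
  have h5 : (q : ℤ) ∣ (d.natAbs : ℤ) := Int.dvd_natAbs.mpr h2
  have h6 : q ∣ d.natAbs := by exact_mod_cast h5
  have h7 : q ≤ d.natAbs := Nat.le_of_dvd (Int.natAbs_pos.mpr hd0) h6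
  omega

end Fin

end Helper61.Berman
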