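import Mathlib
import Pool.Agent.Lib_helper61.BermanBasic

/-!
# Automorphisms of the centre of an integral group ring: the hypercentral induction
-/

set_option autoImplicit false
open Classical

namespace Helper61.Berman

variable {G : Type*} [Group G] [Fintype G]

/-- `x` is supported on `H` -/
def Supp (H : Subgroup G) (x : ZC G) : Prop := ∀ g, cf x g ≠ 0 → g ∈ H

/-- the inductive hypothesis on an automorphism -/
structure Good (H : Subgroup G) (φ : ZC G →+* ZC G) : Prop where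
  supp : ∀ x, Supp H x → Supp H (φ x)
  norm : ∀ x, Supp H x → n1 (φ x) = n1 x
  one : ∀ x, Supp H x → cf (φ x) 1 = cf x 1

omit [Fintype G] in
theorem int_of_bot (x : ZC G) (hx : Supp ⊥ x) : x = (cf x 1) • (1 : ZC G) := by
  apply ext_cf
  intro g
  rw [cf_smul, cf_one]
  by_cases hg : g = 1
  · subst hg; simp
  · simp only [hg, if_false, mul_zero]
    by_contra h
    exact hg (Subgroup.mem_bot.mp (hx g h))

theorem good_bot (φ : ZC G →+* ZC G) : Good ⊥ φ := by
  have key : ∀ x : ZC G, Supp ⊥ x → φ x = x := by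
    intro x hx
    rw [int_of_bot x hx, map_zsmul, map_one]
  constructor
  · intro x hx; rwa [key x hx]
  · intro x hx; rw [key x hx]
  · intro x hx; rw [key x hx]

theorem n1_cs (c : ConjClasses G) : n1 (cs c) = ∑ g, cf (cs c) g := by
  unfold n1
  apply Finset.sum_congr rfl
  intro g _
  rw [cf_cs]; split <;> simp

theorem sq_cs (c : ConjClasses G) : ∑ g, cf (cs c) g * cf (cs c) g = n1 (cs c) := by
  rw [n1_cs]
  apply Finset.sum_congr rfl
  intro g _
  rw [cf_cs]; split <;> simp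

theorem double (f : G → ℤ) : ∑ g, ∑ h, f (g * h) * f h = (∑ g, f g) * (∑ g, f g) :=
  calc ∑ g, ∑ h, f (g * h) * f h = ∑ h, ∑ g, f (g * h) * f h := Finset.sum_comm
    _ = ∑ h, ∑ g, f g * f h := by
        apply Finset.sum_congr rfl
        intro h _
        exact Fintype.sum_equiv (Equiv.mulRight h) _ _ (fun g => by simp)
    _ = ∑ g, ∑ h, f g * f h := Finset.sum_comm
    _ = _ := (Finset.sum_mul_sum _ _ _ _).symm

theorem n1_cs_mul_st (c : ConjClasses G) : n1 (cs c * st (cs c)) = n1 (cs c) * n1 (cs c) := by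
  have h0 : ∀ g, 0 ≤ cf (cs c) g := by
    intro g; rw [cf_cs]; split <;> simp
  have h1 : ∀ g, |cf (cs c * st (cs c)) g| = ∑ h, cf (cs c) (g * h) * cf (cs c) h := by
    intro g
    rw [cf_mul_st, abs_of_nonneg]
    exact Finset.sum_nonneg (fun h _ => mul_nonneg (h0 _) (h0 _))
  rw [n1_cs c, n1, Finset.sum_congr rfl (fun g _ => h1 g)]
  exact double (fun g => cf (cs c) g)

/-- Main analysis of `Y = φ(K)`, from `Σ Y² = k` and `‖Y Y*‖₁ = k²`. -/
theorem analysis (Y : ZC G) (k : ℤ) (h2 : ∑ g, cf Y g * cf Y g = k)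
    (h1 : n1 (Y * st Y) = k * k) :
    n1 Y = k ∧ (∀ g, |cf Y g| ≤ 1) ∧
      ∀ a b, cf Y a ≠ 0 → cf Y b ≠ 0 → cf (Y * st Y) (a * b⁻¹) ≠ 0 := by
  have hk : 0 ≤ k := by
    rw [← h2]; exact Finset.sum_nonneg (fun g _ => mul_self_nonneg _)
  have hle : ∀ g, |cf Y g| ≤ cf Y g * cf Y g := by
    intro g
    rcases eq_or_ne (cf Y g) 0 with h | h
    · simp [h]
    · have : 1 ≤ |cf Y g| := Int.one_le_abs h
      calc |cf Y g| = |cf Y g| * 1 := (mul_one _).symm
        _ ≤ |cf Y g| * |cf Y g| := by gcongr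
        _ = cf Y g * cf Y g := abs_mul_abs_self _
  have hn : n1 Y ≤ k := by
    rw [← h2]; exact Finset.sum_le_sum (fun g _ => hle g)
  have hn0 := n1_nonneg Y
  -- triangle inequality termwise
  have htri : ∀ g, |cf (Y * st Y) g| ≤ ∑ h, |cf Y (g * h)| * |cf Y h| := by
    intro g
    rw [cf_mul_st]
    refine (Finset.abs_sum_le_sum_abs _ _).trans (le_of_eq ?_)
    apply Finset.sum_congr rfl
    intro h _
    rw [abs_mul]
  have hsum : ∑ g, ∑ h, |cf Y (g * h)| * |cf Y h| = n1 Y * n1 Y := by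
    exact double (fun g => |cf Y g|)
  have hle2 : k * k ≤ n1 Y * n1 Y := by
    rw [← h1, ← hsum]
    exact Finset.sum_le_sum (fun g _ => htri g)
  have hnk : n1 Y = k := by nlinarith
  refine ⟨hnk, ?_, ?_⟩
  · have heq : ∀ g ∈ (Finset.univ : Finset G), |cf Y g| = cf Y g * cf Y g := by
      rw [← Finset.sum_eq_sum_iff_of_le (fun g _ => hle g)]
      rw [h2]; exact hnk
    intro g
    have := heq g (Finset.mem_univ g)
    rcases eq_or_ne (cf Y g) 0 with h | h
    · simp [h]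
    · have hp : 0 < |cf Y g| := abs_pos.mpr h
      rw [← abs_mul_abs_self] at this
      nlinarith
  · have heq : ∀ g ∈ (Finset.univ : Finset G),
        |cf (Y * st Y) g| = ∑ h, |cf Y (g * h)| * |cf Y h| := by
      rw [← Finset.sum_eq_sum_iff_of_le (fun g _ => htri g)]
      rw [hsum, hnk]; exact h1
    intro a b ha hb h0
    have h3 := heq (a * b⁻¹) (Finset.mem_univ _)
    rw [h0, abs_zero] at h3
    have h4 : |cf Y (a * b⁻¹ * b)| * |cf Y b| ≤ ∑ h, |cf Y (a * b⁻¹ * h)| * |cf Y h| :=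
      Finset.single_le_sum (f := fun h => |cf Y (a * b⁻¹ * h)| * |cf Y h|)
        (fun h _ => mul_nonneg (abs_nonneg _) (abs_nonneg _)) (Finset.mem_univ b)
    rw [inv_mul_cancel_right] at h4
    have h5 : 0 < |cf Y a| * |cf Y b| := mul_pos (abs_pos.mpr ha) (abs_pos.mpr hb)
    linarith

/-- What the hypothesis on `H` gives for the class sums of classes that are central
modulo `H`. -/
theorem step_cs (H : Subgroup G) (φ ψ : ZC G →+* ZC G) (hψφ : ∀ x, ψ (φ x) = x)
    (hφ : Good H φ) (hψ : Good H ψ) (c : ConjClasses G)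
    (hc : ∀ g, ConjClasses.mk g = c → ∀ y, g * y * g⁻¹ * y⁻¹ ∈ H) :
    n1 (φ (cs c)) = n1 (cs c) ∧ (∀ g, |cf (φ (cs c)) g| ≤ 1) ∧
    (∀ g, cf (φ (cs c)) g ≠ 0 → ∀ y, g * y * g⁻¹ * y⁻¹ ∈ H) ∧
    cf (φ (cs c)) 1 = cf (cs c) 1 := by
  have hsupp : Supp H (cs c * st (cs c)) := by
    intro g hg
    rw [cf_mul_st] at hg
    obtain ⟨h, _, hh⟩ := Finset.exists_ne_zero_of_sum_ne_zero hg
    have ha : ConjClasses.mk (g * h) = c := by
      by_contra hne; apply hh; rw [cf_cs (g := g * h), if_neg hne, zero_mul]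
    have hb : ConjClasses.mk h = c := by
      by_contra hne; apply hh; rw [cf_cs (g := h), if_neg hne, mul_zero]
    have hconj : IsConj (g * h) h := by
      rw [← ConjClasses.mk_eq_mk_iff_isConj, ha, hb]
    obtain ⟨y, hy⟩ := isConj_iff.mp hconj
    -- h = y (g h) y⁻¹
    have h1 := hc (g * h) ha y
    have h2 : g * h * y * (g * h)⁻¹ * y⁻¹ = g * h * (y * (g * h) * y⁻¹)⁻¹ := by group
    rw [h2, hy, mul_inv_cancel_right] at h1
    exact h1
  have e1 : φ (cs c * st (cs c)) = φ (cs c) * st (φ (cs c)) := by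
    rw [map_mul, map_st]
  have hs := hφ.one _ hsupp
  rw [e1, cf_mul_st_one, cf_mul_st_one, sq_cs] at hs
  have hn := hφ.norm _ hsupp
  rw [e1, n1_cs_mul_st] at hn
  obtain ⟨A1, A2, A3⟩ := analysis (φ (cs c)) (n1 (cs c)) hs hn
  have hsp := hφ.supp _ hsupp
  rw [e1] at hsp
  have A4 : ∀ g, cf (φ (cs c)) g ≠ 0 → ∀ y, g * y * g⁻¹ * y⁻¹ ∈ H := by
    intro g hg y
    have h2 : cf (φ (cs c)) (y * g * y⁻¹) ≠ 0 := by rwa [cf_conj]
    have h3 := hsp _ (A3 g (y * g * y⁻¹) hg h2)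
    have h4 : g * y * g⁻¹ * y⁻¹ = g * (y * g * y⁻¹)⁻¹ := by group
    rw [h4]; exact h3
  refine ⟨A1, A2, A4, ?_⟩
  by_cases h0 : cf (φ (cs c)) 1 = 0
  · by_cases hc1 : ConjClasses.mk (1 : G) = c
    · have : cs c = 1 := by
        apply ext_cf
        intro g
        rw [cf_cs, cf_one, ← hc1]
        simp only [ConjClasses.mk_eq_mk_iff_isConj, isConj_one_left]
      rw [this, map_one]
    · rw [h0, cf_cs, if_neg hc1]
  · have hs2 : Supp H (φ (cs c)) := by
      intro a ha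
      have h3 := hsp _ (A3 a 1 ha h0)
      rwa [inv_one, mul_one] at h3
    have h5 := hψ.one _ hs2
    rw [hψφ] at h5
    exact h5.symm

omit [Fintype G] in
theorem cs_of_supp (H' : Subgroup G) (P : G → Prop) (hP : ∀ g, g ∈ H' ↔ P g) (x : ZC G)
    (hx : Supp H' x) (c : ConjClasses G) (hc : cf x (Quotient.out c) ≠ 0) :
    ∀ g, ConjClasses.mk g = c → P g := by
  intro g hg
  rw [← hP]
  apply hx
  have : cf x g = cf x (Quotient.out c) := by
    apply cf_mk_eq
    rw [hg]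
    exact (Quotient.out_eq c).symm
  rwa [this]

/-- The inductive step, first half. -/
theorem step_aux (H H' : Subgroup G) (hH' : ∀ g, g ∈ H' ↔ ∀ y, g * y * g⁻¹ * y⁻¹ ∈ H)
    (φ ψ : ZC G →+* ZC G) (hψφ : ∀ x, ψ (φ x) = x)
    (hφ : Good H φ) (hψ : Good H ψ) (x : ZC G) (hx : Supp H' x) :
    Supp H' (φ x) ∧ n1 (φ x) ≤ n1 x ∧ cf (φ x) 1 = cf x 1 := by
  have hdec := decomp x
  have hmap : φ x = ∑ c : ConjClasses G, (cf x (Quotient.out c)) • φ (cs c) := by
    conv_lhs => rw [hdec]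
    rw [map_sum]
    simp only [map_zsmul]
  have hcs : ∀ c : ConjClasses G, cf x (Quotient.out c) ≠ 0 → _ := fun c hc =>
    step_cs H φ ψ hψφ hφ hψ c (cs_of_supp H' _ hH' x hx c hc)
  refine ⟨?_, ?_, ?_⟩
  · intro g hg
    rw [hmap, cf_sum] at hg
    obtain ⟨c, _, hc⟩ := Finset.exists_ne_zero_of_sum_ne_zero hg
    rw [cf_smul] at hc
    have h1 : cf x (Quotient.out c) ≠ 0 := left_ne_zero_of_mul hc
    have h2 : cf (φ (cs c)) g ≠ 0 := right_ne_zero_of_mul hc
    rw [hH']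
    exact (hcs c h1).2.2.1 g h2
  · rw [hmap, n1_decomp x]
    refine (n1_sum_le _ _).trans (Finset.sum_le_sum ?_)
    intro c _
    rw [n1_smul]
    by_cases h1 : cf x (Quotient.out c) = 0
    · simp [h1]
    · rw [(hcs c h1).1]
  · conv_rhs => rw [hdec]
    rw [hmap, cf_sum, cf_sum]
    apply Finset.sum_congr rfl
    intro c _
    rw [cf_smul, cf_smul]
    by_cases h1 : cf x (Quotient.out c) = 0
    · simp [h1]
    · rw [(hcs c h1).2.2.2]

theorem step (H H' : Subgroup G) (hH' : ∀ g, g ∈ H' ↔ ∀ y, g * y * g⁻¹ * y⁻¹ ∈ H)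
    (φ ψ : ZC G →+* ZC G) (hψφ : ∀ x, ψ (φ x) = x) (hφψ : ∀ x, φ (ψ x) = x)
    (hφ : Good H φ) (hψ : Good H ψ) : Good H' φ := by
  have a1 := step_aux H H' hH' φ ψ hψφ hφ hψ
  have a2 := step_aux H H' hH' ψ φ hφψ hψ hφ
  refine ⟨fun x hx => (a1 x hx).1, fun x hx => ?_, fun x hx => (a1 x hx).2.2⟩
  apply le_antisymm (a1 x hx).2.1
  have := (a2 (φ x) (a1 x hx).1).2.1
  rwa [hψφ] at this

theorem good_upper (φ ψ : ZC G →+* ZC G) (hψφ : ∀ x, ψ (φ x) = x) (hφψ : ∀ x, φ (ψ x) = x)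
    (n : ℕ) : Good (Subgroup.upperCentralSeries G n) φ ∧
      Good (Subgroup.upperCentralSeries G n) ψ := by
  induction n with
  | zero =>
    rw [Subgroup.upperCentralSeries_zero]
    exact ⟨good_bot φ, good_bot ψ⟩
  | succ n ih =>
    have hH' : ∀ g : G, g ∈ Subgroup.upperCentralSeries G (n + 1) ↔
        ∀ y, g * y * g⁻¹ * y⁻¹ ∈ Subgroup.upperCentralSeries G n := by
      intro g
      exact Subgroup.mem_upperCentralSeries_succ_iff
    exact ⟨step _ _ hH' φ ψ hψφ hφψ ih.1 ih.2, step _ _ hH' ψ φ hφψ hψφ ih.2 ih.1⟩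

/-- An automorphism that is an `ℓ¹` isometry on the central elements supported on `H`
is monomial on the class sums of classes inside `H`. -/
theorem monomial (H : Subgroup G) (φ ψ : ZC G →+* ZC G) (hψφ : ∀ x, ψ (φ x) = x)
    (hφψ : ∀ x, φ (ψ x) = x)
    (hφ : Good H φ) (hψ : Good H ψ) (g₀ : G) (hg₀ : ∀ g, IsConj g₀ g → g ∈ H) :
    ∃ g₁ : G, (∀ g, IsConj g₁ g → g ∈ H) ∧ ∃ ε : ℤ, (ε = 1 ∨ ε = -1) ∧
      φ (cs (ConjClasses.mk g₀)) = ε • cs (ConjClasses.mk g₁) := by
  set K : ZC G := cs (ConjClasses.mk g₀) with hK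
  have hKsupp : Supp H K := by
    intro g hg
    apply hg₀
    by_contra hne
    apply hg
    rw [hK, cf_cs, if_neg]
    rw [ConjClasses.mk_eq_mk_iff_isConj]
    exact fun h => hne h.symm
  have hK1 : cf K g₀ = 1 := by rw [hK, cf_cs, if_pos rfl]
  -- φ K ≠ 0
  have hne : ∃ u, cf (φ K) u ≠ 0 := by
    by_contra hcon
    push Not at hcon
    have : φ K = 0 := ext_cf (fun g => by rw [hcon g]; rfl)
    have h2 : K = 0 := by rw [← hψφ K, this, map_zero]
    rw [h2, cf_zero] at hK1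
    exact zero_ne_one hK1
  obtain ⟨u, hu⟩ := hne
  have hYsupp := hφ.supp K hKsupp
  have huH : ∀ g, IsConj u g → g ∈ H := by
    intro g hg
    apply hYsupp
    rwa [← cf_isConj _ hg]
  set L : ZC G := cs (ConjClasses.mk u) with hL
  have hLsupp : Supp H L := by
    intro g hg
    apply huH
    by_contra hne
    apply hg
    rw [hL, cf_cs, if_neg]
    rw [ConjClasses.mk_eq_mk_iff_isConj]
    exact fun h => hne h.symm
  set m : ℤ := cf (φ K) u with hm
  set z : ZC G := ψ L with hz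
  have hφz : φ z = L := hφψ L
  -- norm identity
  have hsupp2 : Supp H (K - m • z) := by
    intro g hg
    rw [cf_sub, cf_smul] at hg
    by_cases h1 : cf K g = 0
    · have : cf z g ≠ 0 := by
        intro h2; apply hg; rw [h1, h2]; simp
      exact hψ.supp L hLsupp g this
    · exact hKsupp g h1
  have hnorm := hφ.norm _ hsupp2
  have e1 : φ (K - m • z) = φ K - m • L := by
    rw [map_sub, map_zsmul, hφz]
  rw [e1] at hnorm
  have e2 : n1 (φ K - m • L) = n1 (φ K) - |m| * n1 L := by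
    unfold n1
    rw [Finset.mul_sum, ← Finset.sum_sub_distrib]
    apply Finset.sum_congr rfl
    intro g _
    rw [cf_sub, cf_smul, hL, cf_cs]
    by_cases h : ConjClasses.mk g = ConjClasses.mk u
    · rw [if_pos h, cf_mk_eq _ h, ← hm]; simp
    · rw [if_neg h]; simp
  have e3 : n1 z = n1 L := hψ.norm L hLsupp
  rw [e2, hφ.norm K hKsupp, ← e3] at hnorm
  have e4 : ∑ g, |cf (K - m • z) g| = ∑ g, (|cf K g| - |m| * |cf z g|) := by
    rw [Finset.sum_sub_distrib, ← Finset.mul_sum]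
    exact hnorm.symm
  have e5 : ∀ g ∈ (Finset.univ : Finset G), |cf K g| - |m| * |cf z g| = |cf (K - m • z) g| := by
    rw [← Finset.sum_eq_sum_iff_of_le]
    · exact e4.symm
    · intro g _
      rw [cf_sub, cf_smul, ← abs_mul]
      exact abs_sub_abs_le_abs_sub _ _
  have hm0 : m ≠ 0 := hu
  have e6 : ∀ g, ¬ IsConj g₀ g → cf z g = 0 := by
    intro g hg
    have h1 := e5 g (Finset.mem_univ g)
    have h2 : cf K g = 0 := by
      rw [hK, cf_cs, if_neg]
      rw [ConjClasses.mk_eq_mk_iff_isConj]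
      exact fun h => hg h.symm
    rw [cf_sub, cf_smul, h2] at h1
    have h3 : 0 ≤ |0 - m * cf z g| := abs_nonneg _
    rw [← h1, abs_zero, zero_sub, neg_nonneg] at h3
    have h4 : 0 < |m| := abs_pos.mpr hm0
    have h5 : 0 ≤ |cf z g| := abs_nonneg _
    have h6 : |cf z g| = 0 := by nlinarith
    exact abs_eq_zero.mp h6
  have e7 : z = (cf z g₀) • K := by
    apply ext_cf
    intro g
    rw [cf_smul]
    by_cases hg : IsConj g₀ g
    · rw [cf_isConj K hg.symm, hK1, mul_one, cf_isConj z hg]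
    · rw [e6 g hg, hK, cf_cs, if_neg]
      · simp
      · rw [ConjClasses.mk_eq_mk_iff_isConj]
        exact fun h => hg h.symm
  have e8 : L = (cf z g₀) • φ K := by
    rw [← hφz, ← map_zsmul, ← e7]
  have e9 : 1 = cf z g₀ * m := by
    have := congrArg (fun y => cf y u) e8
    simp only [cf_smul] at this
    rw [← hm] at this
    rw [← this, hL, cf_cs, if_pos rfl]
  have e10 : m = 1 ∨ m = -1 := by
    have : IsUnit m := IsUnit.of_mul_eq_one _ ((mul_comm _ _).trans e9.symm)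
    exact Int.isUnit_iff.mp this
  refine ⟨u, huH, m, e10, ?_⟩
  rw [← hL, e8, smul_smul, mul_comm m, ← e9, one_smul]

end Helper61.Berman
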